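import Mathlib

open scoped Topology Pointwise

namespace Pool.Agent.Lib.MP_046d9d_an

universe u v

section defs

variable {𝕜 : Type} [RCLike 𝕜] {X : Type u} [NormedAddCommGroup X] [NormedSpace 𝕜 X] {k : ℕ}

/-- The norm `‖P‖ = sup_{‖x‖ = 1} ‖P x‖` of the `k`-homogeneous polynomial `P x = A (x, …, x)`. -/
noncomputable def polyNorm (A : ContinuousMultilinearMap 𝕜 (fun _ : Fin k => X) X) : ℝ :=
  sSup {r : ℝ | ∃ x : X, ‖x‖ = 1 ∧ r = ‖A (fun _ => x)‖}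

/-- The numerical radius `v(P) = sup {|f (P x)| : ‖x‖ = ‖f‖ = f x = 1}` of `P x = A (x, …, x)`. -/
noncomputable def numRadius (A : ContinuousMultilinearMap 𝕜 (fun _ : Fin k => X) X) : ℝ :=
  sSup {r : ℝ | ∃ (x : X) (f : X →L[𝕜] 𝕜), ‖x‖ = 1 ∧ ‖f‖ = 1 ∧ f x = 1 ∧
    r = ‖f (A (fun _ => x))‖}

variable (𝕜 k X)

/-- The polynomial numerical index `n^{(k)}(X) = inf {v(P) : ‖P‖ = 1}`. -/
noncomputable def polyIndex : ℝ :=
  sInf {r : ℝ | ∃ A : ContinuousMultilinearMap 𝕜 (fun _ : Fin k => X) X,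
    polyNorm A = 1 ∧ r = numRadius A}

/-- The set of all values `n^{(k)}(X)` for nonzero Banach spaces `X` over `𝕜`. -/
def indexRange : Set ℝ :=
  {r : ℝ | ∃ (X : Type u) (_ : NormedAddCommGroup X) (_ : NormedSpace 𝕜 X)
    (_ : CompleteSpace X) (_ : Nontrivial X), r = polyIndex 𝕜 X k}

end defs

end Pool.Agent.Lib.MP_046d9d_an
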