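import Mathlib
import Pool.Agent.Lib.MP_046d9d_an.Defs

open scoped Topology Pointwise

namespace Pool.Agent.Lib.MP_046d9d_an

universe u v

section basic

variable {𝕜 : Type} [RCLike 𝕜] {X : Type u} [NormedAddCommGroup X] [NormedSpace 𝕜 X] {k : ℕ}

lemma norm_diag_le (A : ContinuousMultilinearMap 𝕜 (fun _ : Fin k => X) X) (x : X) :
    ‖A (fun _ => x)‖ ≤ ‖A‖ * ‖x‖ ^ k := by
  have := A.le_opNorm (fun _ => x)
  simpa using this

lemma bddAbove_polyNorm (A : ContinuousMultilinearMap 𝕜 (fun _ : Fin k => X) X) :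
    BddAbove {r : ℝ | ∃ x : X, ‖x‖ = 1 ∧ r = ‖A (fun _ => x)‖} := by
  refine ⟨‖A‖, ?_⟩
  rintro r ⟨x, hx, rfl⟩
  have := norm_diag_le A x
  simpa [hx] using this

lemma bddAbove_numRadius (A : ContinuousMultilinearMap 𝕜 (fun _ : Fin k => X) X) :
    BddAbove {r : ℝ | ∃ (x : X) (f : X →L[𝕜] 𝕜), ‖x‖ = 1 ∧ ‖f‖ = 1 ∧ f x = 1 ∧
      r = ‖f (A (fun _ => x))‖} := by
  refine ⟨‖A‖, ?_⟩
  rintro r ⟨x, f, hx, hf, -, rfl⟩
  have h1 := norm_diag_le A x
  have h2 := f.le_opNorm (A (fun _ => x))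
  rw [hf, one_mul] at h2
  simp only [hx, one_pow, mul_one] at h1
  exact h2.trans h1

lemma le_polyNorm (A : ContinuousMultilinearMap 𝕜 (fun _ : Fin k => X) X) {x : X} (hx : ‖x‖ = 1) :
    ‖A (fun _ => x)‖ ≤ polyNorm A :=
  le_csSup (bddAbove_polyNorm A) ⟨x, hx, rfl⟩

lemma le_numRadius (A : ContinuousMultilinearMap 𝕜 (fun _ : Fin k => X) X) {x : X}
    {f : X →L[𝕜] 𝕜} (hx : ‖x‖ = 1) (hf : ‖f‖ = 1) (hfx : f x = 1) :
    ‖f (A (fun _ => x))‖ ≤ numRadius A :=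
  le_csSup (bddAbove_numRadius A) ⟨x, f, hx, hf, hfx, rfl⟩

lemma polyNorm_nonneg (A : ContinuousMultilinearMap 𝕜 (fun _ : Fin k => X) X) :
    0 ≤ polyNorm A := by
  apply Real.sSup_nonneg
  rintro r ⟨x, -, rfl⟩
  exact norm_nonneg _

lemma numRadius_nonneg (A : ContinuousMultilinearMap 𝕜 (fun _ : Fin k => X) X) :
    0 ≤ numRadius A := by
  apply Real.sSup_nonneg
  rintro r ⟨x, f, -, -, -, rfl⟩
  exact norm_nonneg _

lemma diag_smul (A : ContinuousMultilinearMap 𝕜 (fun _ : Fin k => X) X) (c : 𝕜) (x : X) :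
    A (fun _ => c • x) = c ^ k • A (fun _ => x) := by
  have := A.map_smul_univ (fun _ => c) (fun _ => x)
  simpa using this

/-- `‖P x‖ ≤ ‖P‖ ‖x‖ ^ k`. -/
lemma diag_le (hk : k ≠ 0) (A : ContinuousMultilinearMap 𝕜 (fun _ : Fin k => X) X) (x : X) :
    ‖A (fun _ => x)‖ ≤ polyNorm A * ‖x‖ ^ k := by
  by_cases hx : x = 0
  · subst hx
    have h1 := diag_smul A 0 (0 : X)
    rw [zero_smul, zero_pow hk, zero_smul] at h1
    rw [h1]
    simp [hk]
  · have hx' : ‖x‖ ≠ 0 := norm_ne_zero_iff.mpr hx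
    set y : X := ((‖x‖⁻¹ : ℝ) : 𝕜) • x with hy
    have hy1 : ‖y‖ = 1 := by
      rw [hy, norm_smul, RCLike.norm_ofReal, abs_of_nonneg (inv_nonneg.mpr (norm_nonneg _)),
        inv_mul_cancel₀ hx']
    have hxy : x = ((‖x‖ : ℝ) : 𝕜) • y := by
      rw [hy, smul_smul, ← RCLike.ofReal_mul, mul_inv_cancel₀ hx', RCLike.ofReal_one, one_smul]
    have h1 := le_polyNorm A hy1
    conv_lhs => rw [hxy]
    rw [diag_smul, norm_smul, norm_pow, RCLike.norm_ofReal, abs_norm, mul_comm]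
    exact mul_le_mul_of_nonneg_right h1 (by positivity)

/-- Homogeneous form of the numerical radius bound. -/
lemma num_le (A : ContinuousMultilinearMap 𝕜 (fun _ : Fin k => X) X) {x : X}
    {f : X →L[𝕜] 𝕜} (hx : x ≠ 0) (hf : ‖f‖ ≤ 1) (hfx : f x = (‖x‖ : 𝕜)) :
    ‖f (A (fun _ => x))‖ ≤ numRadius A * ‖x‖ ^ k := by
  have hx' : ‖x‖ ≠ 0 := norm_ne_zero_iff.mpr hx
  set y : X := ((‖x‖⁻¹ : ℝ) : 𝕜) • x with hy
  have hy1 : ‖y‖ = 1 := by
    rw [hy, norm_smul, RCLike.norm_ofReal, abs_of_nonneg (inv_nonneg.mpr (norm_nonneg _)),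
      inv_mul_cancel₀ hx']
  have hxy : x = ((‖x‖ : ℝ) : 𝕜) • y := by
    rw [hy, smul_smul, ← RCLike.ofReal_mul, mul_inv_cancel₀ hx', RCLike.ofReal_one, one_smul]
  have hfy : f y = 1 := by
    rw [hy, map_smul, hfx, smul_eq_mul, ← RCLike.ofReal_mul, inv_mul_cancel₀ hx', RCLike.ofReal_one]
  have hf1 : ‖f‖ = 1 := by
    refine le_antisymm hf ?_
    have := f.le_opNorm y
    rw [hfy, hy1, norm_one, mul_one] at this
    exact this
  have h1 := le_numRadius A hy1 hf1 hfy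
  conv_lhs => rw [hxy]
  rw [diag_smul, map_smul, norm_smul, norm_pow, RCLike.norm_ofReal, abs_norm, mul_comm]
  exact mul_le_mul_of_nonneg_right h1 (by positivity)

lemma bddBelow_index : BddBelow {r : ℝ | ∃ A : ContinuousMultilinearMap 𝕜 (fun _ : Fin k => X) X,
    polyNorm A = 1 ∧ r = numRadius A} := by
  refine ⟨0, ?_⟩
  rintro r ⟨A, -, rfl⟩
  exact numRadius_nonneg A

/-- The basic upper estimate for the index. -/
lemma polyIndex_le (A : ContinuousMultilinearMap 𝕜 (fun _ : Fin k => X) X) (hA : 0 < polyNorm A) :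
    polyIndex 𝕜 X k ≤ numRadius A / polyNorm A := by
  set c : 𝕜 := (((polyNorm A)⁻¹ : ℝ) : 𝕜) with hc
  have hcn : ‖c‖ = (polyNorm A)⁻¹ := by
    rw [hc, RCLike.norm_ofReal, abs_of_pos (inv_pos.mpr hA)]
  have h1 : polyNorm (c • A) = 1 := by
    have : {r : ℝ | ∃ x : X, ‖x‖ = 1 ∧ r = ‖(c • A) (fun _ => x)‖}
        = (polyNorm A)⁻¹ • {r : ℝ | ∃ x : X, ‖x‖ = 1 ∧ r = ‖A (fun _ => x)‖} := by
      ext r
      constructor
      · rintro ⟨x, hx, rfl⟩
        refine ⟨‖A (fun _ => x)‖, ⟨x, hx, rfl⟩, ?_⟩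
        simp [norm_smul, hcn]
      · rintro ⟨s, ⟨x, hx, rfl⟩, rfl⟩
        refine ⟨x, hx, ?_⟩
        simp [norm_smul, hcn]
    unfold polyNorm at *
    rw [this, Real.sSup_smul_of_nonneg (inv_nonneg.mpr hA.le), smul_eq_mul]
    exact inv_mul_cancel₀ hA.ne'
  have h2 : numRadius (c • A) = numRadius A / polyNorm A := by
    have : {r : ℝ | ∃ (x : X) (f : X →L[𝕜] 𝕜), ‖x‖ = 1 ∧ ‖f‖ = 1 ∧ f x = 1 ∧
          r = ‖f ((c • A) (fun _ => x))‖}
        = (polyNorm A)⁻¹ • {r : ℝ | ∃ (x : X) (f : X →L[𝕜] 𝕜), ‖x‖ = 1 ∧ ‖f‖ = 1 ∧ f x = 1 ∧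
          r = ‖f (A (fun _ => x))‖} := by
      ext r
      constructor
      · rintro ⟨x, f, hx, hf, hfx, rfl⟩
        refine ⟨‖f (A (fun _ => x))‖, ⟨x, f, hx, hf, hfx, rfl⟩, ?_⟩
        simp [hcn]
      · rintro ⟨s, ⟨x, f, hx, hf, hfx, rfl⟩, rfl⟩
        refine ⟨x, f, hx, hf, hfx, ?_⟩
        simp [hcn]
    unfold numRadius
    rw [this, Real.sSup_smul_of_nonneg (inv_nonneg.mpr hA.le), smul_eq_mul]
    rw [div_eq_inv_mul]
  exact csInf_le bddBelow_index ⟨c • A, h1, h2.symm⟩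

lemma polyIndex_le' (A : ContinuousMultilinearMap 𝕜 (fun _ : Fin k => X) X) {V K : ℝ} (hK : 0 < K)
    {x₀ : X} (hx₀ : ‖x₀‖ = 1) (hKx : K ≤ ‖A (fun _ => x₀)‖)
    (hV : ∀ (x : X) (f : X →L[𝕜] 𝕜), ‖x‖ = 1 → ‖f‖ = 1 → f x = 1 → ‖f (A (fun _ => x))‖ ≤ V) :
    polyIndex 𝕜 X k ≤ V / K := by
  have h1 : K ≤ polyNorm A := hKx.trans (le_polyNorm A hx₀)
  have hpos : 0 < polyNorm A := hK.trans_le h1
  have hV0 : 0 ≤ V := by
    obtain ⟨f, hf, hfx⟩ := exists_dual_vector 𝕜 x₀ (by rw [hx₀]; exact one_ne_zero)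
    exact (norm_nonneg _).trans (hV x₀ f hx₀ hf (by rw [hfx, hx₀, RCLike.ofReal_one]))
  have h2 : numRadius A ≤ V := by
    apply Real.sSup_le _ hV0
    rintro r ⟨x, f, hx, hf, hfx, rfl⟩
    exact hV x f hx hf hfx
  calc polyIndex 𝕜 X k ≤ numRadius A / polyNorm A := polyIndex_le A hpos
    _ ≤ V / K := div_le_div₀ hV0 h2 hK h1

/-- The polynomial `x ↦ φ x ^ k • v`. -/
noncomputable def rankOne (k : ℕ) (φ : X →L[𝕜] 𝕜) (v : X) :
    ContinuousMultilinearMap 𝕜 (fun _ : Fin k => X) X :=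
  (ContinuousLinearMap.toSpanSingleton 𝕜 v).compContinuousMultilinearMap
    ((ContinuousMultilinearMap.mkPiAlgebra 𝕜 (Fin k) 𝕜).compContinuousLinearMap (fun _ => φ))

lemma rankOne_apply (φ : X →L[𝕜] 𝕜) (v x : X) :
    rankOne k φ v (fun _ => x) = φ x ^ k • v := by
  simp [rankOne, ContinuousLinearMap.toSpanSingleton_apply]

lemma numRadius_le_polyNorm (A : ContinuousMultilinearMap 𝕜 (fun _ : Fin k => X) X) :
    numRadius A ≤ polyNorm A := by
  apply Real.sSup_le _ (polyNorm_nonneg A)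
  rintro r ⟨x, f, hx, hf, hfx, rfl⟩
  have h2 := f.le_opNorm (A (fun _ => x))
  rw [hf, one_mul] at h2
  exact h2.trans (le_polyNorm A hx)

lemma exists_unit (𝕜 : Type) [RCLike 𝕜] (X : Type u) [NormedAddCommGroup X] [NormedSpace 𝕜 X]
    [Nontrivial X] : ∃ x : X, ‖x‖ = 1 := by
  obtain ⟨y, hy⟩ := exists_ne (0 : X)
  exact ⟨((‖y‖⁻¹ : ℝ) : 𝕜) • y, by
    rw [norm_smul, RCLike.norm_ofReal, abs_of_nonneg (inv_nonneg.mpr (norm_nonneg _)),
      inv_mul_cancel₀ (norm_ne_zero_iff.mpr hy)]⟩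

variable (𝕜 X) in
lemma exists_polyNorm_eq_one [Nontrivial X] (k : ℕ) :
    ∃ A : ContinuousMultilinearMap 𝕜 (fun _ : Fin k => X) X, polyNorm A = 1 := by
  obtain ⟨x₀, hx₀⟩ := exists_unit 𝕜 X
  obtain ⟨φ, hφ, hφx⟩ := exists_dual_vector 𝕜 x₀ (by rw [hx₀]; exact one_ne_zero)
  rw [hx₀, RCLike.ofReal_one] at hφx
  refine ⟨rankOne k φ x₀, le_antisymm ?_ ?_⟩
  · apply Real.sSup_le _ zero_le_one
    rintro r ⟨x, hx, rfl⟩
    rw [rankOne_apply, norm_smul, hx₀, mul_one, norm_pow]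
    have := φ.le_opNorm x
    rw [hφ, hx, mul_one] at this
    exact pow_le_one₀ (norm_nonneg _) this
  · have := le_polyNorm (rankOne k φ x₀) hx₀
    rwa [rankOne_apply, hφx, one_pow, one_smul, hx₀] at this

lemma polyIndex_le_one [Nontrivial X] : polyIndex 𝕜 X k ≤ 1 := by
  obtain ⟨A, hA⟩ := exists_polyNorm_eq_one 𝕜 X k
  have h1 := polyIndex_le A (by rw [hA]; exact one_pos)
  have h2 := numRadius_le_polyNorm A
  rw [hA] at h1 h2
  simpa using h1.trans (by simpa using h2)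

lemma le_polyIndex [Nontrivial X] {c : ℝ}
    (h : ∀ A : ContinuousMultilinearMap 𝕜 (fun _ : Fin k => X) X, polyNorm A = 1 → c ≤ numRadius A) :
    c ≤ polyIndex 𝕜 X k := by
  obtain ⟨A, hA⟩ := exists_polyNorm_eq_one 𝕜 X k
  refine le_csInf ⟨_, A, hA, rfl⟩ ?_
  rintro r ⟨B, hB, rfl⟩
  exact h B hB

/-- Perturbation estimate for the index. -/
lemma perturb {Y : Type v} [NormedAddCommGroup Y] [NormedSpace 𝕜 Y] [Nontrivial X]
    (hk : k ≠ 0) (T : X ≃L[𝕜] Y) {q δ : ℝ} (hq : 0 < q) (hδ : 0 ≤ δ)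
    (h1 : ∀ x, ‖T x‖ ≤ q * ‖x‖) (h2 : ∀ x, ‖x‖ ≤ q * ‖T x‖)
    (h3 : ∀ (x : X) (g : Y →L[𝕜] 𝕜), x ≠ 0 → ‖g‖ = 1 → g (T x) = (‖T x‖ : 𝕜) →
      ∃ f : X →L[𝕜] 𝕜, ‖f‖ ≤ 1 ∧ f x = (‖x‖ : 𝕜) ∧ ∀ z, ‖g (T z) - f z‖ ≤ δ * ‖z‖) :
    polyIndex 𝕜 Y k ≤ q ^ (2 * k + 1) * (polyIndex 𝕜 X k + δ) := by
  have hqp : 0 < q ^ (2 * k + 1) := by positivity
  -- it is enough to bound for each `A`
  suffices h : ∀ A : ContinuousMultilinearMap 𝕜 (fun _ : Fin k => X) X, polyNorm A = 1 →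
      polyIndex 𝕜 Y k / q ^ (2 * k + 1) - δ ≤ numRadius A by
    have := le_polyIndex h
    rw [sub_le_iff_le_add, div_le_iff₀ hqp, mul_comm] at this
    exact this
  intro A hA
  rw [sub_le_iff_le_add, div_le_iff₀ hqp]
  set B : ContinuousMultilinearMap 𝕜 (fun _ : Fin k => Y) Y :=
    (T : X →L[𝕜] Y).compContinuousMultilinearMap
      (A.compContinuousLinearMap (fun _ => (T.symm : Y →L[𝕜] X))) with hB
  have hBapp : ∀ y : Y, B (fun _ => y) = T (A (fun _ => T.symm y)) := by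
    intro y
    simp [hB]
  -- numerical radius of B
  have hV : ∀ (y : Y) (g : Y →L[𝕜] 𝕜), ‖y‖ = 1 → ‖g‖ = 1 → g y = 1 →
      ‖g (B (fun _ => y))‖ ≤ q ^ k * (numRadius A + δ) := by
    intro y g hy hg hgy
    set x : X := T.symm y with hx
    have hTx : T x = y := by rw [hx, ContinuousLinearEquiv.apply_symm_apply]
    have hx0 : x ≠ 0 := by
      intro h
      rw [h, map_zero] at hTx
      rw [← hTx, norm_zero] at hy
      exact zero_ne_one hy
    obtain ⟨f, hf, hfx, hfg⟩ := h3 x g hx0 hg (by rw [hTx, hgy, hy, RCLike.ofReal_one])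
    have e1 : g (B (fun _ => y)) = f (A (fun _ => x)) + (g (T (A (fun _ => x))) - f (A (fun _ => x))) := by
      rw [hBapp]; ring
    have e2 := num_le A hx0 hf hfx
    have e3 := hfg (A (fun _ => x))
    have e4 := diag_le hk A x
    rw [hA, one_mul] at e4
    have e5 : ‖x‖ ≤ q := by
      have := h2 x
      rwa [hTx, hy, mul_one] at this
    have e6 : ‖x‖ ^ k ≤ q ^ k := pow_le_pow_left₀ (norm_nonneg _) e5 k
    calc ‖g (B (fun _ => y))‖ ≤ ‖f (A (fun _ => x))‖ + ‖g (T (A (fun _ => x))) - f (A (fun _ => x))‖ := by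
          rw [e1]; exact norm_add_le _ _
      _ ≤ numRadius A * ‖x‖ ^ k + δ * ‖x‖ ^ k := by
          refine add_le_add e2 (e3.trans (mul_le_mul_of_nonneg_left e4 hδ))
      _ = (numRadius A + δ) * ‖x‖ ^ k := by ring
      _ ≤ (numRadius A + δ) * q ^ k :=
          mul_le_mul_of_nonneg_left e6 (add_nonneg (numRadius_nonneg A) hδ)
      _ = q ^ k * (numRadius A + δ) := by ring
  -- lower bound for the norm of B
  have hlim : ∀ c : ℝ, c < 1 → 0 < c → polyIndex 𝕜 Y k ≤ (numRadius A + δ) * q ^ (2 * k + 1) / c := by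
    intro c hc hc0
    obtain ⟨r, ⟨x, hx, rfl⟩, hr⟩ := exists_lt_of_lt_csSup (s := {r : ℝ | ∃ x : X, ‖x‖ = 1 ∧ r = ‖A (fun _ => x)‖})
      (by
        obtain ⟨x₀, hx₀⟩ := exists_unit 𝕜 X
        exact ⟨_, x₀, hx₀, rfl⟩) (b := c) (by
        have : sSup {r : ℝ | ∃ x : X, ‖x‖ = 1 ∧ r = ‖A (fun _ => x)‖} = 1 := hA
        rw [this]; exact hc)
    have hx0 : x ≠ 0 := by
      intro h
      rw [h, norm_zero] at hx
      exact zero_ne_one hx
    have hTx0 : 0 < ‖T x‖ := by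
      rw [norm_pos_iff]
      intro h
      exact hx0 ((map_eq_zero_iff T T.injective).mp h)
    set y : Y := ((‖T x‖⁻¹ : ℝ) : 𝕜) • T x with hy
    have hy1 : ‖y‖ = 1 := by
      rw [hy, norm_smul, RCLike.norm_ofReal, abs_of_nonneg (inv_nonneg.mpr (norm_nonneg _)),
        inv_mul_cancel₀ hTx0.ne']
    have hBy : ‖B (fun _ => y)‖ = ‖T (A (fun _ => x))‖ / ‖T x‖ ^ k := by
      rw [hy, diag_smul, norm_smul, norm_pow, RCLike.norm_ofReal,
        abs_of_nonneg (inv_nonneg.mpr (norm_nonneg _)), hBapp, ContinuousLinearEquiv.symm_apply_apply,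
        inv_pow]
      field_simp
    have hlow : c / q ^ (k + 1) ≤ ‖B (fun _ => y)‖ := by
      rw [hBy, div_le_div_iff₀ (by positivity) (by positivity)]
      have e1 : ‖A (fun _ => x)‖ ≤ q * ‖T (A (fun _ => x))‖ := h2 _
      have e2 : ‖T x‖ ≤ q := by
        have := h1 x
        rwa [hx, mul_one] at this
      have e3 : ‖T x‖ ^ k ≤ q ^ k := pow_le_pow_left₀ (norm_nonneg _) e2 k
      calc c * ‖T x‖ ^ k ≤ (q * ‖T (A (fun _ => x))‖) * q ^ k := by
            apply mul_le_mul (hr.le.trans e1) e3 (by positivity) (by positivity)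
        _ = ‖T (A (fun _ => x))‖ * q ^ (k + 1) := by ring
    have := polyIndex_le' B (K := c / q ^ (k + 1)) (by positivity) hy1 hlow hV
    refine this.trans (le_of_eq ?_)
    rw [div_div_eq_mul_div]
    congr 1
    ring
  -- let c → 1
  have hcont : Filter.Tendsto (fun c : ℝ => (numRadius A + δ) * q ^ (2 * k + 1) / c)
      (𝓝[<] 1) (𝓝 ((numRadius A + δ) * q ^ (2 * k + 1) / 1)) := by
    apply tendsto_nhdsWithin_of_tendsto_nhds
    exact (continuousAt_const.div continuousAt_id (by norm_num)).tendsto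
  rw [div_one] at hcont
  refine ge_of_tendsto hcont ?_
  have : Set.Ioo (0 : ℝ) 1 ∈ 𝓝[<] (1 : ℝ) := Ioo_mem_nhdsLT one_pos
  filter_upwards [this] with c hc
  exact hlim c hc.2 hc.1

end basic

/-- Isometric invariance. -/
lemma polyIndex_congr {𝕜 : Type} [RCLike 𝕜] {X : Type u} [NormedAddCommGroup X] [NormedSpace 𝕜 X]
    {Y : Type v} [NormedAddCommGroup Y] [NormedSpace 𝕜 Y] [Nontrivial X] {k : ℕ}
    (hk : k ≠ 0) (T : X ≃ₗᵢ[𝕜] Y) : polyIndex 𝕜 X k = polyIndex 𝕜 Y k := by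
  have : Nontrivial Y := T.symm.toLinearEquiv.toEquiv.nontrivial
  apply le_antisymm
  · have := perturb (X := Y) (Y := X) (k := k) hk T.symm.toContinuousLinearEquiv (q := 1) (δ := 0)
      one_pos le_rfl (fun x => by simp) (fun x => by simp) (by
        intro x g hx hg hgx
        refine ⟨g.comp (T.symm.toContinuousLinearEquiv : Y →L[𝕜] X), ?_, ?_, ?_⟩
        · refine ContinuousLinearMap.opNorm_le_bound _ zero_le_one ?_
          intro z
          have := g.le_opNorm (T.symm z)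
          rw [hg, LinearIsometryEquiv.norm_map] at this
          simpa using this
        · simpa using hgx
        · intro z
          simp)
    simpa using this
  · have := perturb (X := X) (Y := Y) (k := k) hk T.toContinuousLinearEquiv (q := 1) (δ := 0)
      one_pos le_rfl (fun x => by simp) (fun x => by simp) (by
        intro x g hx hg hgx
        refine ⟨g.comp (T.toContinuousLinearEquiv : X →L[𝕜] Y), ?_, ?_, ?_⟩
        · refine ContinuousLinearMap.opNorm_le_bound _ zero_le_one ?_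
          intro z
          have := g.le_opNorm (T z)
          rw [hg, LinearIsometryEquiv.norm_map] at this
          simpa using this
        · simpa using hgx
        · intro z
          simp)
    simpa using this

/-- Passing to a larger universe. -/
lemma indexRange_ulift {𝕜 : Type} [RCLike 𝕜] {k : ℕ} (hk : k ≠ 0) :
    indexRange.{0} 𝕜 k ⊆ indexRange.{u} 𝕜 k := by
  rintro r ⟨X, i1, i2, i3, i4, rfl⟩
  refine ⟨ULift.{u} X, inferInstance, inferInstance, inferInstance, inferInstance, ?_⟩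
  exact (polyIndex_congr hk (LinearIsometryEquiv.ulift 𝕜 X)).symm


end Pool.Agent.Lib.MP_046d9d_an
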