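import Mathlib

/-!
Abstract frame: a real normed space with coordinate functionals `e m`, bumps `b m` and a
filtration `D n`, in which new coordinates are averages of two old ones.
-/

set_option autoImplicit false

open Filter
open scoped Topology

namespace Pool.Agent.Lib.MP_046d9d_an

/-- first parent -/
def par1 (m : ℕ) : ℕ := (Nat.unpair (Nat.unpair m).2).1

/-- second parent -/
def par2 (m : ℕ) : ℕ := (Nat.unpair (Nat.unpair m).2).2

lemma unpair_snd_lt {m : ℕ} (hm : 2 ≤ m) : (Nat.unpair m).2 < m := by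
  rcases lt_or_eq_of_le (Nat.unpair_right_le m) with h | h
  · exact h
  · exfalso
    have h1 := Nat.pair_unpair m
    rw [h, Nat.pair] at h1
    split_ifs at h1 with h2
    · nlinarith
    · have h3 : (Nat.unpair m).1 * (Nat.unpair m).1 = 0 := by omega
      have h4 : (Nat.unpair m).1 = 0 := by simpa using h3
      omega

lemma par1_lt {m : ℕ} (hm : 2 ≤ m) : par1 m < m :=
  lt_of_le_of_lt (Nat.unpair_left_le _) (unpair_snd_lt hm)

lemma par2_lt {m : ℕ} (hm : 2 ≤ m) : par2 m < m :=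
  lt_of_le_of_lt (Nat.unpair_right_le _) (unpair_snd_lt hm)

/-- For every pair `(p, q)` and every `N` there is a strictly increasing sequence of indices
`> N`, all with parents `p, q`. -/
lemma exists_seq (p q N : ℕ) : ∃ t : ℕ → ℕ, StrictMono t ∧ (∀ j, N < t j) ∧ (∀ j, 2 ≤ t j) ∧
    (∀ j, par1 (t j) = p) ∧ (∀ j, par2 (t j) = q) := by
  refine ⟨fun j => Nat.pair (j + (N + 2)) (Nat.pair p q), ?_, ?_, ?_, ?_, ?_⟩
  · intro i j hij
    exact Nat.pair_lt_pair_left _ (by omega)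
  · intro j
    have := Nat.left_le_pair (j + (N + 2)) (Nat.pair p q)
    show N < Nat.pair (j + (N + 2)) (Nat.pair p q)
    omega
  · intro j
    have := Nat.left_le_pair (j + (N + 2)) (Nat.pair p q)
    show 2 ≤ Nat.pair (j + (N + 2)) (Nat.pair p q)
    omega
  · intro j
    simp [par1]
  · intro j
    simp [par2]

/-- A real normed space with a system of coordinates and bumps. -/
structure Frame (X : Type) [NormedAddCommGroup X] [NormedSpace ℝ X] where
  D : ℕ → Submodule ℝ X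
  mono : Monotone D
  e : ℕ → X →L[ℝ] ℝ
  b : ℕ → X
  e_le : ∀ m x, |e m x| ≤ ‖x‖
  norming : ∀ x c, c < ‖x‖ → ∃ m, c < |e m x|
  dense : ∀ x, ∀ δ > 0, ∃ n, ∃ g ∈ D n, ‖x - g‖ < δ
  b_mem : ∀ m, 2 ≤ m → b m ∈ D m
  e_b_self : ∀ m, 2 ≤ m → e m (b m) = 1
  e_b_lt : ∀ m j, 2 ≤ m → j < m → e j (b m) = 0
  avg : ∀ n m x, x ∈ D n → n < m → 2 ≤ m → e m x = (e (par1 m) x + e (par2 m) x) / 2
  norm_add : ∀ n m x (ξ : ℝ), x ∈ D n → n < m → 2 ≤ m → ‖x + ξ • b m‖ ≤ max ‖x‖ |e m x + ξ|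

namespace Frame

variable {X : Type} [NormedAddCommGroup X] [NormedSpace ℝ X] (F : Frame X)

include F

/-- The data of a sequence of indices with the same parents. -/
structure Sq (p q N : ℕ) where
  t : ℕ → ℕ
  mono : StrictMono t
  gt : ∀ j, N < t j
  two : ∀ j, 2 ≤ t j
  p1 : ∀ j, par1 (t j) = p
  p2 : ∀ j, par2 (t j) = q

omit F in
lemma Sq.p_lt {p q N : ℕ} (s : Sq p q N) (j : ℕ) : p < s.t j := by
  have := par1_lt (s.two j)
  rwa [s.p1] at this

omit F in
lemma Sq.q_lt {p q N : ℕ} (s : Sq p q N) (j : ℕ) : q < s.t j := by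
  have := par2_lt (s.two j)
  rwa [s.p2] at this

lemma e_b_sq {p q N : ℕ} (s : Sq p q N) {i j : ℕ} (hij : i ≠ j) :
    F.e (s.t i) (F.b (s.t j)) = 0 := by
  rcases lt_or_gt_of_ne hij with h | h
  · exact F.e_b_lt _ _ (s.two j) (s.mono h)
  · rw [F.avg (s.t j) (s.t i) _ (F.b_mem _ (s.two j)) (s.mono h) (s.two i), s.p1, s.p2,
      F.e_b_lt _ _ (s.two j) (s.p_lt j), F.e_b_lt _ _ (s.two j) (s.q_lt j)]
    norm_num

lemma e_b_p {p q N : ℕ} (s : Sq p q N) (j : ℕ) : F.e p (F.b (s.t j)) = 0 :=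
  F.e_b_lt _ _ (s.two j) (s.p_lt j)

lemma e_b_q {p q N : ℕ} (s : Sq p q N) (j : ℕ) : F.e q (F.b (s.t j)) = 0 :=
  F.e_b_lt _ _ (s.two j) (s.q_lt j)

lemma norm_b_le {p q N : ℕ} (s : Sq p q N) (j : ℕ) : ‖F.b (s.t j)‖ ≤ 1 := by
  have h1 : (1 : ℕ) < s.t j := s.two j
  have h := F.norm_add 1 (s.t j) 0 1 (F.D 1).zero_mem h1 (s.two j)
  simpa using h

/-- partial sums of bumps -/
noncomputable def psum {p q N : ℕ} (s : Sq p q N) (σ : ℕ → ℝ) (L : ℕ) : X :=
  ∑ j ∈ Finset.range L, σ j • F.b (s.t j)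

lemma psum_mem {p q N : ℕ} (s : Sq p q N) (σ : ℕ → ℝ) (L n : ℕ) (h : ∀ j < L, s.t j ≤ n) :
    F.psum s σ L ∈ F.D n := by
  refine Submodule.sum_mem _ (fun j hj => ?_)
  exact Submodule.smul_mem _ _ (F.mono (h j (Finset.mem_range.mp hj)) (F.b_mem _ (s.two j)))

lemma e_psum {p q N : ℕ} (s : Sq p q N) (σ : ℕ → ℝ) (L : ℕ) :
    F.e (s.t L) (F.psum s σ L) = 0 := by
  rw [psum, map_sum]
  refine Finset.sum_eq_zero (fun j hj => ?_)
  rw [map_smul, F.e_b_sq s (Finset.mem_range.mp hj).ne', smul_zero]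

lemma norm_psum_le {p q N : ℕ} (s : Sq p q N) (σ : ℕ → ℝ) (hσ : ∀ j, |σ j| ≤ 1) (L : ℕ) :
    ‖F.psum s σ L‖ ≤ 1 := by
  induction L with
  | zero => simp [psum]
  | succ L ih =>
    rw [psum, Finset.sum_range_succ]
    change ‖F.psum s σ L + σ L • F.b (s.t L)‖ ≤ 1
    have hm : F.psum s σ L ∈ F.D (s.t L - 1) := by
      refine F.psum_mem s σ L _ (fun j hj => ?_)
      have := s.mono hj
      omega
    have h2 := s.two L
    refine (F.norm_add (s.t L - 1) (s.t L) _ (σ L) hm (by omega) h2).trans ?_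
    rw [F.e_psum, zero_add]
    exact max_le ih (hσ L)

/-- `∑ |φ (b_j)| ≤ ‖φ‖` in the form used below. -/
lemma sum_abs_le {p q N : ℕ} (s : Sq p q N) (φ : X →L[ℝ] ℝ) {C : ℝ} (hφ : ∀ x, |φ x| ≤ C * ‖x‖)
    (hC : 0 ≤ C) (L : ℕ) : ∑ j ∈ Finset.range L, |φ (F.b (s.t j))| ≤ C := by
  let σ : ℕ → ℝ := fun j => SignType.sign (φ (F.b (s.t j)))
  have hσ : ∀ j, |σ j| ≤ 1 := by
    intro j
    rcases lt_trichotomy (φ (F.b (s.t j))) 0 with h | h | h <;> simp [σ, h]
  have h1 : φ (F.psum s σ L) = ∑ j ∈ Finset.range L, |φ (F.b (s.t j))| := by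
    rw [psum, map_sum]
    refine Finset.sum_congr rfl (fun j _ => ?_)
    rw [map_smul, smul_eq_mul]
    exact sign_mul_self _
  rw [← h1]
  refine (le_abs_self _).trans ((hφ _).trans ?_)
  exact mul_le_of_le_one_right hC (F.norm_psum_le s σ hσ L)

lemma tendsto_lin {p q N : ℕ} (s : Sq p q N) (φ : X →L[ℝ] ℝ) :
    Tendsto (fun j => φ (F.b (s.t j))) atTop (𝓝 0) := by
  have h1 : Summable (fun j => |φ (F.b (s.t j))|) := by
    refine summable_of_sum_range_le (c := ‖φ‖) (fun _ => abs_nonneg _) (fun L => ?_)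
    exact F.sum_abs_le s φ (fun x => by simpa using φ.le_opNorm x) (norm_nonneg _) L
  exact (tendsto_zero_iff_abs_tendsto_zero _).mpr h1.tendsto_atTop_zero

/-- Diagonal sums of a bilinear form along the bumps. -/
lemma diag_sum {p q N : ℕ} (s : Sq p q N) (β : X →L[ℝ] X →L[ℝ] ℝ) (c : ℕ → ℝ)
    (hc : ∀ j, c j = 0 ∨ c j = 1) (L : ℕ) : ∃ σ : ℕ → ℝ, (∀ j, |σ j| ≤ 1) ∧
      ∑ j ∈ Finset.range L, c j * β (F.b (s.t j)) (F.b (s.t j)) ≤
        β (F.psum s σ L) (F.psum s σ L) := by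
  induction L with
  | zero => exact ⟨fun _ => 0, fun _ => by simp, by simp [psum]⟩
  | succ L ih =>
    obtain ⟨σ, hσ, hs⟩ := ih
    set z := F.psum s σ L with hz
    set v := F.b (s.t L) with hv
    let r : ℝ := β z v + β v z
    obtain ⟨τ, hτ1, hτ2, hτ3⟩ : ∃ τ : ℝ, |τ| ≤ 1 ∧ τ * τ = c L ∧ 0 ≤ τ * r := by
      rcases hc L with h | h
      · exact ⟨0, by simp, by simp [h], by simp⟩
      · rcases le_total 0 r with hr | hr
        · exact ⟨1, by simp, by simp [h], by simpa using hr⟩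
        · exact ⟨-1, by simp, by simp [h], by simpa using hr⟩
    refine ⟨Function.update σ L τ, ?_, ?_⟩
    · intro j
      by_cases hj : j = L
      · subst hj; simpa using hτ1
      · simpa [Function.update_of_ne hj] using hσ j
    · have e1 : F.psum s (Function.update σ L τ) (L + 1) = z + τ • v := by
        rw [psum, Finset.sum_range_succ, Function.update_self]
        congr 1
        rw [hz, psum]
        refine Finset.sum_congr rfl (fun j hj => ?_)
        rw [Function.update_of_ne (Finset.mem_range.mp hj).ne]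
      rw [e1, Finset.sum_range_succ, ← hτ2]
      have e2 : β (z + τ • v) (z + τ • v) = β z z + τ * r + τ * τ * β v v := by
        simp only [map_add, map_smul, _root_.add_apply, _root_.smul_apply,
          smul_eq_mul, r]
        ring
      rw [e2]
      linarith

lemma tendsto_diag {p q N : ℕ} (s : Sq p q N) (β : X →L[ℝ] X →L[ℝ] ℝ) :
    Tendsto (fun j => β (F.b (s.t j)) (F.b (s.t j))) atTop (𝓝 0) := by
  have key : ∀ (γ : X →L[ℝ] X →L[ℝ] ℝ),
      Tendsto (fun j => max (γ (F.b (s.t j)) (F.b (s.t j))) 0) atTop (𝓝 0) := by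
    intro γ
    have h1 : Summable (fun j => max (γ (F.b (s.t j)) (F.b (s.t j))) 0) := by
      refine summable_of_sum_range_le (c := ‖γ‖) (fun _ => le_max_right _ _) (fun L => ?_)
      let c : ℕ → ℝ := fun j => if 0 ≤ γ (F.b (s.t j)) (F.b (s.t j)) then 1 else 0
      obtain ⟨σ, hσ, hs⟩ := F.diag_sum s γ c (fun j => by
        by_cases h : 0 ≤ γ (F.b (s.t j)) (F.b (s.t j)) <;> simp [c, h]) L
      have e1 : ∑ j ∈ Finset.range L, max (γ (F.b (s.t j)) (F.b (s.t j))) 0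
          = ∑ j ∈ Finset.range L, c j * γ (F.b (s.t j)) (F.b (s.t j)) := by
        refine Finset.sum_congr rfl (fun j _ => ?_)
        by_cases h : 0 ≤ γ (F.b (s.t j)) (F.b (s.t j))
        · simp [c, h]
        · simp only [c, h, if_false, zero_mul]
          exact max_eq_right (not_le.mp h).le
      rw [e1]
      have n1 := F.norm_psum_le s σ hσ L
      have n2 : γ (F.psum s σ L) (F.psum s σ L) ≤ ‖γ‖ * ‖F.psum s σ L‖ * ‖F.psum s σ L‖ :=
        (le_abs_self _).trans (γ.le_opNorm₂ _ _)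
      have n3 : ‖γ‖ * ‖F.psum s σ L‖ * ‖F.psum s σ L‖ ≤ ‖γ‖ * 1 * 1 := by
        gcongr
      linarith
    exact h1.tendsto_atTop_zero
  have h1 := key β
  have h2 := key (-β)
  have h3 := h1.sub h2
  rw [sub_zero] at h3
  refine h3.congr (fun j => ?_)
  simp only [_root_.neg_apply]
  rcases le_total 0 (β (F.b (s.t j)) (F.b (s.t j))) with h | h
  · rw [max_eq_left h, max_eq_right (by linarith)]; ring
  · rw [max_eq_right h, max_eq_left (by linarith)]; ring

lemma tendsto_e {p q N : ℕ} (s : Sq p q N) (g : X) :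
    Tendsto (fun j => F.e (s.t j) g) atTop (𝓝 ((F.e p g + F.e q g) / 2)) := by
  rw [Metric.tendsto_atTop]
  intro ε hε
  obtain ⟨n, g', hg', hgg⟩ := F.dense g (ε / 2) (by positivity)
  refine ⟨n + 1, fun j hj => ?_⟩
  have hn : n < s.t j := by
    have := s.mono.id_le j
    simp only [id] at this
    omega
  have h1 := F.avg n (s.t j) g' hg' hn (s.two j)
  rw [s.p1, s.p2] at h1
  have h2 := F.e_le (s.t j) (g - g')
  have h3 := F.e_le p (g - g')
  have h4 := F.e_le q (g - g')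
  rw [map_sub, abs_le] at h2 h3 h4
  rw [Real.dist_eq, abs_lt]
  constructor <;> linarith [h2.1, h2.2, h3.1, h3.2, h4.1, h4.2]

end Frame

end Pool.Agent.Lib.MP_046d9d_an
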