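import Mathlib
import Pool.Agent.Lib.MP_046d9d_an.Frame

/-!
The key lemma: a bounded bilinear map cannot be negative on all small bumps.
-/

set_option autoImplicit false

open Filter
open scoped Topology

namespace Pool.Agent.Lib.MP_046d9d_an

namespace Frame

variable {X : Type} [NormedAddCommGroup X] [NormedSpace ℝ X] (F : Frame X)

/-- `φ ∘ B` as a bilinear form. -/
noncomputable def post (φ : X →L[ℝ] ℝ) (B : X →L[ℝ] X →L[ℝ] X) : X →L[ℝ] X →L[ℝ] ℝ :=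
  (ContinuousLinearMap.compL ℝ X X ℝ φ).comp B

lemma post_apply (φ : X →L[ℝ] ℝ) (B : X →L[ℝ] X →L[ℝ] X) (x y : X) :
    post φ B x y = φ (B x y) := rfl

/-- One step of the growth argument. -/
lemma step (B : X →L[ℝ] X →L[ℝ] X) (N₀ : ℕ) (f₀ : X → ℝ) {ε : ℝ} (hε : 0 < ε)
    (H : ∀ m, N₀ < m → 2 ≤ m → (∀ x ∈ F.D N₀, F.e m x = f₀ x) →
      F.e m (B (F.b m) (F.b m)) < -ε)
    {y : X} {n p q : ℕ} {a : ℝ} (hy : y ∈ F.D n) (hy1 : ‖y‖ ≤ 1)
    (hf : ∀ x ∈ F.D N₀, (F.e p x + F.e q x) / 2 = f₀ x) (h0 : F.e p y + F.e q y = 0)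
    (ha : (F.e p (B y y) + F.e q (B y y)) / 2 ≤ a) :
    ∃ (y' : X) (n' p' q' : ℕ), y' ∈ F.D n' ∧ ‖y'‖ ≤ 1 ∧
      (∀ x ∈ F.D N₀, (F.e p' x + F.e q' x) / 2 = f₀ x) ∧ F.e p' y' + F.e q' y' = 0 ∧
      (F.e p' (B y' y') + F.e q' (B y' y')) / 2 ≤ a - ε / 2 := by
  obtain ⟨t, t1, t2, t3, t4, t5⟩ := exists_seq p q (max N₀ n)
  let s : Sq p q (max N₀ n) := ⟨t, t1, t2, t3, t4, t5⟩
  let b : ℕ → X := fun j => F.b (s.t j)
  let δ : ℝ := ε / 16
  have hδ : 0 < δ := by positivity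
  have hN : ∀ j, N₀ < s.t j := fun j => lt_of_le_of_lt (le_max_left _ _) (s.gt j)
  have hn : ∀ j, n < s.t j := fun j => lt_of_le_of_lt (le_max_right _ _) (s.gt j)
  have hfs : ∀ j, ∀ x ∈ F.D N₀, F.e (s.t j) x = f₀ x := by
    intro j x hx
    rw [F.avg N₀ (s.t j) x hx (hN j) (s.two j), s.p1, s.p2, hf x hx]
  have hneg : ∀ j, F.e (s.t j) (B (b j) (b j)) < -ε := fun j => H _ (hN j) (s.two j) (hfs j)
  -- good `j`
  have ev1 : ∀ᶠ j in atTop, |F.e (s.t j) (B y y) - (F.e p (B y y) + F.e q (B y y)) / 2| < δ := by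
    have := (F.tendsto_e s (B y y)).eventually (Metric.ball_mem_nhds _ hδ)
    filter_upwards [this] with j hj
    simpa [Real.dist_eq] using hj
  let φ₀ : X →L[ℝ] ℝ := (1 / 2 : ℝ) • (F.e p + F.e q)
  have hφ₀ : ∀ x, φ₀ x = (F.e p x + F.e q x) / 2 := by
    intro x
    simp only [φ₀, _root_.smul_apply, _root_.add_apply, smul_eq_mul]
    ring
  have ev2 : ∀ᶠ j in atTop, |(F.e p (B (b j) (b j)) + F.e q (B (b j) (b j))) / 2| < δ := by
    have := (F.tendsto_diag s (post φ₀ B)).eventually (Metric.ball_mem_nhds _ hδ)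
    filter_upwards [this] with j hj
    rw [dist_zero_right, Real.norm_eq_abs, post_apply, hφ₀] at hj
    exact hj
  obtain ⟨j₀, hj₀⟩ := eventually_atTop.mp (ev1.and ev2)
  obtain ⟨L, hL⟩ := exists_nat_gt (2 * ‖B‖ / δ)
  have hL' : 2 * ‖B‖ < L * δ := by rwa [div_lt_iff₀ hδ] at hL
  -- choose `l`
  have evl : ∀ᶠ l in atTop, ∀ j ∈ Finset.Ico j₀ (j₀ + L),
      |F.e (s.t j) (B (b l) (b l))| < δ ∧ |F.e (s.t j) (B (b j) (b l))| < δ ∧
      |F.e (s.t j) (B (b l) (b j))| < δ ∧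
      |F.e (s.t l) (B (b j) (b j)) - (F.e p (B (b j) (b j)) + F.e q (B (b j) (b j))) / 2| < δ := by
    rw [eventually_all_finset]
    intro j _
    have c1 := (F.tendsto_diag s (post (F.e (s.t j)) B)).eventually (Metric.ball_mem_nhds _ hδ)
    have c2 := (F.tendsto_lin s ((F.e (s.t j)).comp (B (b j)))).eventually
      (Metric.ball_mem_nhds _ hδ)
    have c3 := (F.tendsto_lin s ((F.e (s.t j)).comp (B.flip (b j)))).eventually
      (Metric.ball_mem_nhds _ hδ)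
    have c4 := (F.tendsto_e s (B (b j) (b j))).eventually (Metric.ball_mem_nhds _ hδ)
    filter_upwards [c1, c2, c3, c4] with l d1 d2 d3 d4
    rw [dist_zero_right, Real.norm_eq_abs] at d1 d2 d3
    rw [Real.dist_eq] at d4
    exact ⟨d1, d2, d3, d4⟩
  obtain ⟨l, hl, hlj⟩ := (evl.and (eventually_ge_atTop (j₀ + L))).exists
  have hB0 : 0 ≤ ‖B‖ := norm_nonneg B
  have nb : ∀ j, ‖b j‖ ≤ 1 := F.norm_b_le s
  -- pigeonhole
  obtain ⟨j, hj, hjl⟩ : ∃ j ∈ Finset.Ico j₀ (j₀ + L),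
      |F.e (s.t l) (B (b j) (b l))| + |F.e (s.t l) (B (b l) (b j))| < δ := by
    by_contra hcon
    push Not at hcon
    have s1 : ∑ j ∈ Finset.range (j₀ + L), |F.e (s.t l) (B (b j) (b l))| ≤ ‖B‖ := by
      refine F.sum_abs_le s ((F.e (s.t l)).comp (B.flip (b l))) (fun x => ?_) hB0 _
      refine (F.e_le _ _).trans ?_
      refine ((B.le_opNorm₂ x (b l))).trans ?_
      exact mul_le_of_le_one_right (by positivity) (nb l)
    have s2 : ∑ j ∈ Finset.range (j₀ + L), |F.e (s.t l) (B (b l) (b j))| ≤ ‖B‖ := by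
      refine F.sum_abs_le s ((F.e (s.t l)).comp (B (b l))) (fun x => ?_) hB0 _
      refine (F.e_le _ _).trans ?_
      refine ((B.le_opNorm₂ (b l) x)).trans ?_
      refine mul_le_mul_of_nonneg_right ?_ (norm_nonneg _)
      exact mul_le_of_le_one_right hB0 (nb l)
    have s3 : ∑ j ∈ Finset.Ico j₀ (j₀ + L),
        (|F.e (s.t l) (B (b j) (b l))| + |F.e (s.t l) (B (b l) (b j))|) ≤ 2 * ‖B‖ := by
      have : ∑ j ∈ Finset.Ico j₀ (j₀ + L),
        (|F.e (s.t l) (B (b j) (b l))| + |F.e (s.t l) (B (b l) (b j))|) ≤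
        ∑ j ∈ Finset.range (j₀ + L),
        (|F.e (s.t l) (B (b j) (b l))| + |F.e (s.t l) (B (b l) (b j))|) := by
        refine Finset.sum_le_sum_of_subset_of_nonneg ?_ (fun _ _ _ => by positivity)
        intro j hj
        rw [Finset.mem_Ico] at hj
        exact Finset.mem_range.mpr hj.2
      rw [Finset.sum_add_distrib (s := Finset.range (j₀ + L))] at this
      linarith
    have s4 : (L : ℝ) * δ ≤ ∑ j ∈ Finset.Ico j₀ (j₀ + L),
        (|F.e (s.t l) (B (b j) (b l))| + |F.e (s.t l) (B (b l) (b j))|) := by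
      have := Finset.card_nsmul_le_sum (Finset.Ico j₀ (j₀ + L)) _ δ hcon
      simpa using this
    linarith
  have hj' := Finset.mem_Ico.mp hj
  have hjl' : j < l := lt_of_lt_of_le hj'.2 hlj
  obtain ⟨g1, g2⟩ := hj₀ j hj'.1
  obtain ⟨g3, -⟩ := hj₀ l (by omega)
  obtain ⟨g4, g5, g6, g7⟩ := hl j hj
  have g8 := hneg j
  have g9 := hneg l
  have htt : s.t j < s.t l := s.mono hjl'
  -- the new vector
  let z : X := b j - b l
  let r : ℝ := (F.e (s.t j) (B y z + B z y) + F.e (s.t l) (B y z + B z y)) / 2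
  obtain ⟨σ, hσ1, hσ2, hσ3⟩ : ∃ σ : ℝ, |σ| = 1 ∧ σ * σ = 1 ∧ σ * r ≤ 0 := by
    rcases le_total r 0 with hr | hr
    · exact ⟨1, by simp, by simp, by simpa using hr⟩
    · exact ⟨-1, by simp, by simp, by simpa using hr⟩
  have ey : ∀ i, F.e (s.t i) y = 0 := by
    intro i
    rw [F.avg n (s.t i) y hy (hn i) (s.two i), s.p1, s.p2, h0, zero_div]
  have ejj : F.e (s.t j) (b j) = 1 := F.e_b_self _ (s.two j)
  have ell : F.e (s.t l) (b l) = 1 := F.e_b_self _ (s.two l)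
  have ejl : F.e (s.t j) (b l) = 0 := F.e_b_sq s hjl'.ne
  have elj : F.e (s.t l) (b j) = 0 := F.e_b_sq s hjl'.ne'
  refine ⟨y + σ • z, s.t l, s.t j, s.t l, ?_, ?_, ?_, ?_, ?_⟩
  · refine Submodule.add_mem _ (F.mono (hn l).le hy) (Submodule.smul_mem _ _
      (Submodule.sub_mem _ (F.mono htt.le (F.b_mem _ (s.two j))) (F.b_mem _ (s.two l))))
  · have e1 : y + σ • z = (y + σ • b j) + (-σ) • b l := by
      simp only [z, smul_sub, neg_smul]; abel
    rw [e1]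
    have m1 : ‖y + σ • b j‖ ≤ 1 := by
      refine (F.norm_add n (s.t j) y σ hy (hn j) (s.two j)).trans ?_
      rw [ey, zero_add, hσ1]
      exact max_le hy1 le_rfl
    have m2 : y + σ • b j ∈ F.D (s.t j) :=
      Submodule.add_mem _ (F.mono (hn j).le hy) (Submodule.smul_mem _ _ (F.b_mem _ (s.two j)))
    refine (F.norm_add (s.t j) (s.t l) _ (-σ) m2 htt (s.two l)).trans ?_
    rw [map_add, map_smul, ey, elj, smul_zero, zero_add, zero_add, abs_neg, hσ1]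
    exact max_le m1 le_rfl
  · intro x hx
    rw [hfs j x hx, hfs l x hx]; ring
  · simp only [z, map_add, map_smul, map_sub, ey, ejj, ell, ejl, elj, smul_eq_mul]
    ring
  · have e1 : (F.e (s.t j) (B (y + σ • z) (y + σ • z)) + F.e (s.t l) (B (y + σ • z) (y + σ • z))) / 2
        = (F.e (s.t j) (B y y) + F.e (s.t l) (B y y)) / 2 + σ * r
          + σ * σ * ((F.e (s.t j) (B z z) + F.e (s.t l) (B z z)) / 2) := by
      simp only [map_add, map_smul, _root_.add_apply, _root_.smul_apply, smul_eq_mul, r]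
      ring
    rw [e1, hσ2, one_mul]
    have e2 : ∀ i, F.e i (B z z) = F.e i (B (b j) (b j)) + F.e i (B (b l) (b l))
        - F.e i (B (b j) (b l)) - F.e i (B (b l) (b j)) := by
      intro i
      simp only [z, map_sub, _root_.sub_apply]
      ring
    rw [e2, e2]
    rw [abs_lt] at g1 g2 g3 g4 g5 g6 g7
    have g10 := abs_le.mp (le_refl |F.e (s.t l) (B (b j) (b l))|)
    have g11 := abs_le.mp (le_refl |F.e (s.t l) (B (b l) (b j))|)
    have hδε : δ = ε / 16 := rfl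
    linarith [g1.1, g1.2, g2.1, g2.2, g3.1, g3.2, g4.1, g4.2, g5.1, g5.2, g6.1, g6.2, g7.1, g7.2,
      g10.1, g11.1, abs_nonneg (F.e (s.t l) (B (b j) (b l))),
      abs_nonneg (F.e (s.t l) (B (b l) (b j)))]

/-- **Key lemma.** -/
theorem claim (B : X →L[ℝ] X →L[ℝ] X) (N₀ p₀ q₀ : ℕ) {ε : ℝ} (hε : 0 < ε) :
    ∃ m, N₀ < m ∧ 2 ≤ m ∧ (∀ x ∈ F.D N₀, F.e m x = (F.e p₀ x + F.e q₀ x) / 2) ∧
      -ε ≤ F.e m (B (F.b m) (F.b m)) := by
  by_contra hcon
  push Not at hcon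
  have key : ∀ r : ℕ, ∃ (y : X) (n p q : ℕ), y ∈ F.D n ∧ ‖y‖ ≤ 1 ∧
      (∀ x ∈ F.D N₀, (F.e p x + F.e q x) / 2 = (F.e p₀ x + F.e q₀ x) / 2) ∧
      F.e p y + F.e q y = 0 ∧ (F.e p (B y y) + F.e q (B y y)) / 2 ≤ -(r : ℝ) * (ε / 2) := by
    intro r
    induction r with
    | zero => exact ⟨0, 0, p₀, q₀, Submodule.zero_mem _, by simp, fun _ _ => rfl, by simp, by simp⟩
    | succ r ih =>
      obtain ⟨y, n, p, q, h1, h2, h3, h4, h5⟩ := ih
      obtain ⟨y', n', p', q', k1, k2, k3, k4, k5⟩ :=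
        F.step B N₀ (fun x => (F.e p₀ x + F.e q₀ x) / 2) hε hcon h1 h2 h3 h4 h5
      refine ⟨y', n', p', q', k1, k2, k3, k4, k5.trans (le_of_eq ?_)⟩
      push_cast
      ring
  obtain ⟨r, hr⟩ := exists_nat_gt (‖B‖ / (ε / 2))
  rw [div_lt_iff₀ (by positivity)] at hr
  obtain ⟨y, n, p, q, -, h2, -, -, h5⟩ := key r
  have n1 : ‖B y y‖ ≤ ‖B‖ := by
    refine (B.le_opNorm₂ y y).trans ?_
    calc ‖B‖ * ‖y‖ * ‖y‖ ≤ ‖B‖ * 1 * 1 := by gcongr
      _ = ‖B‖ := by ring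
  have n2 := (abs_le.mp ((F.e_le p (B y y)).trans n1)).1
  have n3 := (abs_le.mp ((F.e_le q (B y y)).trans n1)).1
  linarith

end Frame

end Pool.Agent.Lib.MP_046d9d_an
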