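import Mathlib

/-!
Second order expansion of `x ↦ A (x, …, x)` for a continuous multilinear map `A`, with
derivatives depending linearly on `A`.
-/

set_option autoImplicit false

namespace Pool.Agent.Lib.MP_046d9d_an

variable {X Y : Type} [NormedAddCommGroup X] [NormedSpace ℝ X] [NormedAddCommGroup Y]
  [NormedSpace ℝ Y]

/-- Second order Taylor expansion of a homogeneous polynomial. -/
theorem taylor (x : X) (hx : ‖x‖ ≤ 1) (k : ℕ) :
    ∃ (D1 : ContinuousMultilinearMap ℝ (fun _ : Fin k => X) Y →L[ℝ] X →L[ℝ] Y)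
      (D2 : ContinuousMultilinearMap ℝ (fun _ : Fin k => X) Y →L[ℝ] X →L[ℝ] X →L[ℝ] Y),
      ∀ (A : ContinuousMultilinearMap ℝ (fun _ : Fin k => X) Y) (b : X) (h : ℝ), ‖b‖ ≤ 1 →
        |h| ≤ 1 →
        ‖A (fun _ => x + h • b)‖ ≤ 2 ^ k * ‖A‖ ∧
        ‖A (fun _ => x + h • b) - A (fun _ => x)‖ ≤ 2 ^ k * ‖A‖ * |h| ∧
        ‖A (fun _ => x + h • b) - A (fun _ => x) - h • D1 A b‖ ≤ 2 ^ k * ‖A‖ * |h| ^ 2 ∧
        ‖A (fun _ => x + h • b) - A (fun _ => x) - h • D1 A b - h ^ 2 • D2 A b b‖
          ≤ 2 ^ k * ‖A‖ * |h| ^ 3 := by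
  induction k with
  | zero =>
    refine ⟨0, 0, ?_⟩
    intro A b h hb hh
    have e1 : (fun _ : Fin 0 => x + h • b) = (fun _ : Fin 0 => x) := Subsingleton.elim _ _
    rw [e1]
    have e2 := A.le_opNorm (fun _ : Fin 0 => x)
    simp only [Finset.univ_eq_empty, Finset.prod_empty, mul_one] at e2
    refine ⟨by simp, ?_, ?_, ?_⟩ <;> simp <;> positivity
  | succ k ih =>
    obtain ⟨D1, D2, hD⟩ := ih
    let c := continuousMultilinearCurryLeftEquiv ℝ (fun _ : Fin (k + 1) => X) Y
    let cL : ContinuousMultilinearMap ℝ (fun _ : Fin (k + 1) => X) Y →L[ℝ]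
        (X →L[ℝ] ContinuousMultilinearMap ℝ (fun _ : Fin k => X) Y) :=
      c.toContinuousLinearEquiv
    let ev : ContinuousMultilinearMap ℝ (fun _ : Fin (k + 1) => X) Y →L[ℝ]
        ContinuousMultilinearMap ℝ (fun _ : Fin k => X) Y :=
      (ContinuousLinearMap.apply ℝ _ x).comp cL
    let T : ContinuousMultilinearMap ℝ (fun _ : Fin (k + 1) => X) Y →L[ℝ] X →L[ℝ] Y :=
      (ContinuousLinearMap.compL ℝ X (ContinuousMultilinearMap ℝ (fun _ : Fin k => X) Y) Y
        (ContinuousMultilinearMap.apply ℝ (fun _ : Fin k => X) Y (fun _ => x))).comp cL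
    let U : ContinuousMultilinearMap ℝ (fun _ : Fin (k + 1) => X) Y →L[ℝ] X →L[ℝ] X →L[ℝ] Y :=
      (ContinuousLinearMap.compL ℝ X (ContinuousMultilinearMap ℝ (fun _ : Fin k => X) Y)
        (X →L[ℝ] Y) D1).comp cL
    refine ⟨D1.comp ev + T, D2.comp ev + U, ?_⟩
    intro A b h hb hh
    have hcA : ∀ (u z : X), A (fun _ => u) = c A u (fun _ => u) := by
      intro u z
      change A _ = A (Fin.cons u (fun _ => u))
      congr 1
      ext i
      refine Fin.cases ?_ (fun j => ?_) i <;> simp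
    have hcn : ∀ u : X, ‖u‖ ≤ 1 → ‖c A u‖ ≤ ‖A‖ := by
      intro u hu
      refine ((c A).le_opNorm u).trans ?_
      rw [c.norm_map]
      exact mul_le_of_le_one_right (norm_nonneg _) hu
    have hA0 : 0 ≤ ‖A‖ := norm_nonneg _
    have hp : (0 : ℝ) ≤ 2 ^ k := by positivity
    have hh0 : 0 ≤ |h| := abs_nonneg h
    have e1 : A (fun _ => x + h • b) = c A x (fun _ => x + h • b) + h • c A b (fun _ => x + h • b) := by
      rw [hcA _ x, map_add, map_smul]
      rfl
    obtain ⟨a0, a1, a2, a3⟩ := hD (c A x) b h hb hh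
    obtain ⟨b0, b1, b2, b3⟩ := hD (c A b) b h hb hh
    have nx := hcn x hx
    have nb := hcn b hb
    have ux : 2 ^ k * ‖c A x‖ ≤ 2 ^ k * ‖A‖ := mul_le_mul_of_nonneg_left nx hp
    have ub : 2 ^ k * ‖c A b‖ ≤ 2 ^ k * ‖A‖ := mul_le_mul_of_nonneg_left nb hp
    have t0 : A (fun _ => x) = c A x (fun _ => x) := hcA x x
    have d1 : (D1.comp ev + T) A b = D1 (c A x) b + c A b (fun _ => x) := rfl
    have d2 : (D2.comp ev + U) A b b = D2 (c A x) b b + D1 (c A b) b := rfl
    rw [d1, d2, e1, t0]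
    have hs : ∀ v : Y, ‖h • v‖ = |h| * ‖v‖ := fun v => by rw [norm_smul, Real.norm_eq_abs]
    refine ⟨?_, ?_, ?_, ?_⟩
    · calc ‖c A x (fun _ => x + h • b) + h • c A b (fun _ => x + h • b)‖
          ≤ 2 ^ k * ‖A‖ + 1 * (2 ^ k * ‖A‖) := by
            refine (norm_add_le _ _).trans (add_le_add (a0.trans ux) ?_)
            rw [hs]
            exact mul_le_mul hh (b0.trans ub) (norm_nonneg _) zero_le_one
        _ = 2 ^ (k + 1) * ‖A‖ := by ring
    · calc ‖c A x (fun _ => x + h • b) + h • c A b (fun _ => x + h • b) - c A x (fun _ => x)‖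
          = ‖(c A x (fun _ => x + h • b) - c A x (fun _ => x))
              + h • c A b (fun _ => x + h • b)‖ := by congr 1; abel
        _ ≤ 2 ^ k * ‖A‖ * |h| + |h| * (2 ^ k * ‖A‖) := by
            refine (norm_add_le _ _).trans (add_le_add ?_ ?_)
            · exact a1.trans (mul_le_mul_of_nonneg_right ux hh0)
            · rw [hs]
              exact mul_le_mul_of_nonneg_left (b0.trans ub) hh0
        _ = 2 ^ (k + 1) * ‖A‖ * |h| := by ring
    · calc ‖c A x (fun _ => x + h • b) + h • c A b (fun _ => x + h • b) - c A x (fun _ => x)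
              - h • (D1 (c A x) b + c A b (fun _ => x))‖
          = ‖(c A x (fun _ => x + h • b) - c A x (fun _ => x) - h • D1 (c A x) b)
              + h • (c A b (fun _ => x + h • b) - c A b (fun _ => x))‖ := by
            congr 1
            rw [smul_add, smul_sub]; abel
        _ ≤ 2 ^ k * ‖A‖ * |h| ^ 2 + |h| * (2 ^ k * ‖A‖ * |h|) := by
            refine (norm_add_le _ _).trans (add_le_add ?_ ?_)
            · exact a2.trans (mul_le_mul_of_nonneg_right ux (by positivity))
            · rw [hs]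
              exact mul_le_mul_of_nonneg_left (b1.trans (mul_le_mul_of_nonneg_right ub hh0)) hh0
        _ = 2 ^ (k + 1) * ‖A‖ * |h| ^ 2 := by ring
    · calc ‖c A x (fun _ => x + h • b) + h • c A b (fun _ => x + h • b) - c A x (fun _ => x)
              - h • (D1 (c A x) b + c A b (fun _ => x))
              - h ^ 2 • (D2 (c A x) b b + D1 (c A b) b)‖
          = ‖(c A x (fun _ => x + h • b) - c A x (fun _ => x) - h • D1 (c A x) b
                - h ^ 2 • D2 (c A x) b b)
              + h • (c A b (fun _ => x + h • b) - c A b (fun _ => x) - h • D1 (c A b) b)‖ := by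
            congr 1
            rw [smul_add, smul_add, smul_sub, smul_sub, smul_smul, pow_two]; abel
        _ ≤ 2 ^ k * ‖A‖ * |h| ^ 3 + |h| * (2 ^ k * ‖A‖ * |h| ^ 2) := by
            refine (norm_add_le _ _).trans (add_le_add ?_ ?_)
            · exact a3.trans (mul_le_mul_of_nonneg_right ux (by positivity))
            · rw [hs]
              exact mul_le_mul_of_nonneg_left
                (b2.trans (mul_le_mul_of_nonneg_right ub (by positivity))) hh0
        _ = 2 ^ (k + 1) * ‖A‖ * |h| ^ 3 := by ring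

end Pool.Agent.Lib.MP_046d9d_an
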