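import Mathlib
import Pool.Agent.Lib.MP_046d9d_an.Basic
import Pool.Agent.Lib.MP_046d9d_an.Taylor
import Pool.Agent.Lib.MP_046d9d_an.Claim

/-!
In a space with a frame every homogeneous polynomial satisfies `‖P‖ ≤ v(P)`.
-/

set_option autoImplicit false

open Filter
open scoped Topology

namespace Pool.Agent.Lib.MP_046d9d_an

namespace Frame

variable {X : Type} [NormedAddCommGroup X] [NormedSpace ℝ X] (F : Frame X) {k : ℕ}

lemma le_num (A : ContinuousMultilinearMap ℝ (fun _ : Fin k => X) X) {x : X} (hx : ‖x‖ ≤ 1)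
    {m : ℕ} (hm : |F.e m x| = 1) : |F.e m (A (fun _ => x))| ≤ numRadius A := by
  have hx1 : ‖x‖ = 1 := le_antisymm hx (by rw [← hm]; exact F.e_le m x)
  have he : ‖F.e m‖ = 1 := by
    refine le_antisymm ?_ ?_
    · exact ContinuousLinearMap.opNorm_le_bound _ zero_le_one (fun y => by
        rw [one_mul]; exact F.e_le m y)
    · have := (F.e m).le_opNorm x
      rwa [hx1, mul_one, Real.norm_eq_abs, hm] at this
  rcases (abs_eq zero_le_one).mp hm with h | h
  · have := le_numRadius A hx1 he h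
    rwa [Real.norm_eq_abs] at this
  · have := le_numRadius A (f := -F.e m) hx1 (by rw [norm_neg, he]) (by
      rw [_root_.neg_apply, h, neg_neg])
    rwa [_root_.neg_apply, norm_neg, Real.norm_eq_abs] at this

/-- Values along the unit ball. -/
def vals (A : ContinuousMultilinearMap ℝ (fun _ : Fin k => X) X) (η : ℝ) : Set ℝ :=
  {r | ∃ (n : ℕ) (x : X) (m : ℕ) (σ : ℝ), x ∈ F.D n ∧ ‖x‖ ≤ 1 ∧ |σ| = 1 ∧
    r = σ * F.e m (A (fun _ => x)) + η * (F.e m x) ^ 2}

lemma diag_le_one (A : ContinuousMultilinearMap ℝ (fun _ : Fin k => X) X) {x : X}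
    (hx : ‖x‖ ≤ 1) : ‖A (fun _ => x)‖ ≤ ‖A‖ := by
  refine (norm_diag_le A x).trans ?_
  exact mul_le_of_le_one_right (norm_nonneg _) (pow_le_one₀ (norm_nonneg _) hx)

lemma vals_le (A : ContinuousMultilinearMap ℝ (fun _ : Fin k => X) X) {η : ℝ} (hη : 0 ≤ η)
    {x : X} (hx : ‖x‖ ≤ 1) (m : ℕ) {σ : ℝ} (hσ : |σ| = 1) :
    σ * F.e m (A (fun _ => x)) + η * (F.e m x) ^ 2 ≤ ‖A‖ + η := by
  refine add_le_add ?_ ?_
  · refine (le_abs_self _).trans ?_
    rw [abs_mul, hσ, one_mul]
    exact (F.e_le _ _).trans (diag_le_one A hx)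
  · refine mul_le_of_le_one_right hη ?_
    have := (F.e_le m x).trans hx
    rw [← sq_abs]
    exact pow_le_one₀ (abs_nonneg _) this

lemma bddAbove_vals (A : ContinuousMultilinearMap ℝ (fun _ : Fin k => X) X) {η : ℝ}
    (hη : 0 ≤ η) : BddAbove (F.vals A η) := by
  refine ⟨‖A‖ + η, ?_⟩
  rintro r ⟨n, x, m, σ, -, hx, hσ, rfl⟩
  exact F.vals_le A hη hx m hσ

include F in
/-- The main estimate. -/
theorem polyNorm_le (A : ContinuousMultilinearMap ℝ (fun _ : Fin k => X) X) :
    polyNorm A ≤ numRadius A := by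
  by_contra hcon
  push Not at hcon
  set v := numRadius A with hv
  set M := polyNorm A with hM
  have hv0 : 0 ≤ v := numRadius_nonneg A
  let η : ℝ := (M - v) / 2
  have hη : 0 < η := by simp only [η]; linarith
  let S : ℝ := sSup (F.vals A η)
  have hbdd := F.bddAbove_vals A hη.le
  have le_S : ∀ {n : ℕ} {x : X} (m : ℕ) {σ : ℝ}, x ∈ F.D n → ‖x‖ ≤ 1 → |σ| = 1 →
      σ * F.e m (A (fun _ => x)) + η * (F.e m x) ^ 2 ≤ S := by
    intro n x m σ hx hx1 hσ
    exact le_csSup hbdd ⟨n, x, m, σ, hx, hx1, hσ, rfl⟩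
  -- `M ≤ S`
  have hMS : M ≤ S := by
    refine le_of_forall_lt (fun c hc => ?_)
    obtain ⟨r, ⟨x, hx, rfl⟩, hr⟩ := exists_lt_of_lt_csSup
      (s := {r : ℝ | ∃ x : X, ‖x‖ = 1 ∧ r = ‖A (fun _ => x)‖}) (by
        by_contra hne
        rw [Set.not_nonempty_iff_eq_empty] at hne
        have : M = 0 := by rw [hM, polyNorm, hne, Real.sSup_empty]
        linarith) hc
    obtain ⟨m, hm⟩ := F.norming _ _ hr
    -- continuity
    have hcA : Continuous (fun z : X => A (fun _ => z)) :=
      A.cont.comp (continuous_pi fun _ => continuous_id)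
    have hcont : Continuous (fun z : X => |F.e m (A (fun _ => z))|) :=
      continuous_abs.comp ((F.e m).continuous.comp hcA)
    have hopen : IsOpen {z : X | c < |F.e m (A (fun _ => z))|} := isOpen_lt continuous_const hcont
    have h1 : ∀ᶠ s : ℝ in 𝓝 0, (1 - s) • x ∈ {z : X | c < |F.e m (A (fun _ => z))|} := by
      have hc1 : Continuous (fun s : ℝ => (1 - s) • x) := by fun_prop
      refine hc1.continuousAt.eventually (hopen.mem_nhds ?_)
      simpa using hm
    have h2 : ∀ᶠ s : ℝ in 𝓝[>] 0, (1 - s) • x ∈ {z : X | c < |F.e m (A (fun _ => z))|} :=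
      h1.filter_mono nhdsWithin_le_nhds
    obtain ⟨s, hs, hs0⟩ := (h2.and (Ioo_mem_nhdsGT (zero_lt_one (α := ℝ)))).exists
    obtain ⟨ρ, hρ, hball⟩ := Metric.isOpen_iff.mp hopen _ hs
    obtain ⟨n, g, hg, hgx⟩ := F.dense ((1 - s) • x) (min ρ s) (lt_min hρ hs0.1)
    have hgn : ‖g‖ ≤ 1 := by
      have e1 : g = (1 - s) • x - ((1 - s) • x - g) := by abel
      rw [e1]
      refine (norm_sub_le _ _).trans ?_
      rw [norm_smul, hx, mul_one, Real.norm_of_nonneg (by linarith [hs0.2])]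
      have := hgx.trans_le (min_le_right _ _)
      linarith
    have hgc : c < |F.e m (A (fun _ => g))| := by
      apply hball
      rw [Metric.mem_ball, dist_comm, dist_eq_norm]
      exact hgx.trans_le (min_le_left _ _)
    have hsq : 0 ≤ η * (F.e m g) ^ 2 := by positivity
    rcases le_total 0 (F.e m (A (fun _ => g))) with h | h
    · rw [abs_of_nonneg h] at hgc
      have := le_S m (σ := 1) hg hgn (by simp)
      linarith
    · rw [abs_of_nonpos h] at hgc
      have := le_S m (σ := -1) hg hgn (by simp)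
      linarith
  -- constants
  have hgap : 0 < S - v - η := by simp only [η]; linarith
  let C : ℝ := 2 ^ k * ‖A‖ + 1
  have hC : 0 < C := by positivity
  let h : ℝ := min 1 (min ((S - v - η) / (4 * C)) (η / (4 * C)))
  have hh : 0 < h := by
    refine lt_min one_pos (lt_min ?_ ?_) <;> positivity
  have hh1 : h ≤ 1 := min_le_left _ _
  have hhC1 : C * h ≤ (S - v - η) / 4 := by
    have : h ≤ (S - v - η) / (4 * C) := (min_le_right _ _).trans (min_le_left _ _)
    calc C * h ≤ C * ((S - v - η) / (4 * C)) := mul_le_mul_of_nonneg_left this hC.le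
      _ = (S - v - η) / 4 := by field_simp
  have hhC2 : C * h ≤ η / 4 := by
    have : h ≤ η / (4 * C) := (min_le_right _ _).trans (min_le_right _ _)
    calc C * h ≤ C * (η / (4 * C)) := mul_le_mul_of_nonneg_left this hC.le
      _ = η / 4 := by field_simp
  let δ : ℝ := min (η * h ^ 2 / 8) ((S - v - η) / 8)
  have hδ : 0 < δ := lt_min (by positivity) (by positivity)
  have hδ1 : δ ≤ η * h ^ 2 / 8 := min_le_left _ _
  have hδ2 : δ ≤ (S - v - η) / 8 := min_le_right _ _
  -- a nearly optimal state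
  have hne : (F.vals A η).Nonempty := ⟨_, 0, 0, 0, 1, Submodule.zero_mem _, by simp, by simp, rfl⟩
  obtain ⟨r, ⟨n, x, m, σ, hxD, hx1, hσ, rfl⟩, hr⟩ := exists_lt_of_lt_csSup hne
    (show S - δ < sSup (F.vals A η) by change S - δ < S; linarith)
  set a : ℝ := F.e m x with ha
  have ha1 : |a| ≤ 1 := (F.e_le m x).trans hx1
  have hσσ : σ = 1 ∨ σ = -1 := by
    rcases (abs_eq zero_le_one).mp hσ with h | h
    · exact Or.inl h
    · exact Or.inr h
  obtain ⟨D1, D2, hT⟩ := taylor (X := X) (Y := X) x hx1 k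
  have hCA : 2 ^ k * ‖A‖ ≤ C := by simp only [C]; linarith
  -- Step A : `|a| + h ≤ 1`
  have stepA : |a| + h ≤ 1 := by
    by_contra hlt
    push Not at hlt
    obtain ⟨t, t1, t2, t3, t4, t5⟩ := exists_seq m m n
    let s : Sq m m n := ⟨t, t1, t2, t3, t4, t5⟩
    have ev := (F.tendsto_e s (A (fun _ => x))).eventually (Metric.ball_mem_nhds _ hδ)
    obtain ⟨j, hj⟩ := ev.exists
    rw [Real.dist_eq] at hj
    have ej : F.e (s.t j) x = a := by
      rw [F.avg n (s.t j) x hxD (s.gt j) (s.two j), s.p1, s.p2]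
      ring
    have hj' : |F.e (s.t j) (A (fun _ => x)) - F.e m (A (fun _ => x))| < δ := by
      have e1 : (F.e m (A (fun _ => x)) + F.e m (A (fun _ => x))) / 2 = F.e m (A (fun _ => x)) := by
        ring
      rwa [e1] at hj
    obtain ⟨ξ, hξ1, hξ2⟩ : ∃ ξ : ℝ, |ξ| ≤ 1 - |a| ∧ |a + ξ| = 1 := by
      rcases le_total 0 a with h0 | h0
      · refine ⟨1 - a, ?_, by simp⟩
        rw [abs_of_nonneg h0, abs_of_nonneg]
        rw [abs_of_nonneg h0] at ha1
        linarith
      · refine ⟨-1 - a, ?_, by simp⟩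
        rw [abs_of_nonpos h0] at ha1 ⊢
        rw [abs_of_nonpos (by linarith)]
        linarith
    have hξh : |ξ| ≤ h := by linarith
    have nx' : ‖x + ξ • F.b (s.t j)‖ ≤ 1 := by
      refine (F.norm_add n (s.t j) x ξ hxD (s.gt j) (s.two j)).trans ?_
      rw [ej, hξ2]
      exact max_le hx1 le_rfl
    have ex' : |F.e (s.t j) (x + ξ • F.b (s.t j))| = 1 := by
      rw [map_add, map_smul, ej, F.e_b_self _ (s.two j), smul_eq_mul, mul_one, hξ2]
    have b1 := F.le_num A nx' ex'
    obtain ⟨-, c2, -, -⟩ := hT A (F.b (s.t j)) ξ (F.norm_b_le s j) (hξh.trans hh1)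
    have c3 : ‖A (fun _ => x + ξ • F.b (s.t j)) - A (fun _ => x)‖ ≤ C * h := by
      refine c2.trans ?_
      exact mul_le_mul hCA hξh (abs_nonneg _) hC.le
    have c4 := (F.e_le (s.t j) _).trans c3
    rw [map_sub] at c4
    have b2 : σ * F.e m (A (fun _ => x)) ≤ v + C * h + δ := by
      rw [abs_le] at b1 c4
      rw [abs_lt] at hj'
      rcases hσσ with h | h <;> rw [h] <;> linarith [b1.1, b1.2, c4.1, c4.2, hj'.1, hj'.2]
    have b3 : η * a ^ 2 ≤ η := by
      refine mul_le_of_le_one_right hη.le ?_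
      rw [← sq_abs]
      exact pow_le_one₀ (abs_nonneg _) ha1
    linarith
  -- Step B
  obtain ⟨n', g, hg, hgx⟩ := F.dense (A (fun _ => x)) (δ / 2) (by positivity)
  obtain ⟨m', h1, h2, h3, h4⟩ := F.claim (σ • D2 A) (max n n') m m (ε := η / 4) (by positivity)
  have hnm : n < m' := lt_of_le_of_lt (le_max_left _ _) h1
  have em' : F.e m' x = a := by
    rw [h3 x (F.mono (le_max_left _ _) hxD)]
    ring
  have eg' : F.e m' g = F.e m g := by
    rw [h3 g (F.mono (le_max_right _ _) hg)]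
    ring
  have hP : |F.e m' (A (fun _ => x)) - F.e m (A (fun _ => x))| < δ := by
    have e1 : F.e m' (A (fun _ => x)) - F.e m (A (fun _ => x))
        = F.e m' (A (fun _ => x) - g) - F.e m (A (fun _ => x) - g) := by
      rw [map_sub, map_sub, eg']; ring
    rw [e1]
    have q1 := F.e_le m' (A (fun _ => x) - g)
    have q2 := F.e_le m (A (fun _ => x) - g)
    refine (abs_sub _ _).trans_lt ?_
    linarith
  have hb : ‖F.b m'‖ ≤ 1 := by
    have h1' : (1 : ℕ) < m' := h2
    have h' := F.norm_add 1 m' 0 1 (F.D 1).zero_mem h1' h2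
    simpa using h'
  have hhabs : |h| = h := abs_of_pos hh
  obtain ⟨-, -, -, cp⟩ := hT A (F.b m') h hb (by rw [hhabs]; exact hh1)
  obtain ⟨-, -, -, cm⟩ := hT A (F.b m') (-h) hb (by rw [abs_neg, hhabs]; exact hh1)
  have np : ‖x + h • F.b m'‖ ≤ 1 := by
    refine (F.norm_add n m' x h hxD hnm h2).trans (max_le hx1 ?_)
    rw [em']
    refine (abs_add_le _ _).trans ?_
    rw [hhabs]; exact stepA
  have nm : ‖x + (-h) • F.b m'‖ ≤ 1 := by
    refine (F.norm_add n m' x (-h) hxD hnm h2).trans (max_le hx1 ?_)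
    rw [em']
    refine (abs_add_le _ _).trans ?_
    rw [abs_neg, hhabs]; exact stepA
  have mp : x + h • F.b m' ∈ F.D m' :=
    Submodule.add_mem _ (F.mono hnm.le hxD) (Submodule.smul_mem _ _ (F.b_mem _ h2))
  have mm : x + (-h) • F.b m' ∈ F.D m' :=
    Submodule.add_mem _ (F.mono hnm.le hxD) (Submodule.smul_mem _ _ (F.b_mem _ h2))
  have vp := le_S m' mp np hσ
  have vm := le_S m' mm nm hσ
  have ep : F.e m' (x + h • F.b m') = a + h := by
    rw [map_add, map_smul, em', F.e_b_self _ h2, smul_eq_mul, mul_one]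
  have em : F.e m' (x + (-h) • F.b m') = a - h := by
    rw [map_add, map_smul, em', F.e_b_self _ h2, smul_eq_mul, mul_one]
    ring
  rw [ep] at vp
  rw [em] at vm
  have kp : |F.e m' (A (fun _ => x + h • F.b m')) - F.e m' (A (fun _ => x))
      - h * F.e m' (D1 A (F.b m')) - h ^ 2 * F.e m' (D2 A (F.b m') (F.b m'))| ≤ C * h ^ 3 := by
    have := (F.e_le m' _).trans cp
    simp only [map_sub, map_smul, smul_eq_mul] at this
    rw [hhabs] at this
    exact this.trans (mul_le_mul_of_nonneg_right hCA (by positivity))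
  have km : |F.e m' (A (fun _ => x + (-h) • F.b m')) - F.e m' (A (fun _ => x))
      - (-h) * F.e m' (D1 A (F.b m')) - (-h) ^ 2 * F.e m' (D2 A (F.b m') (F.b m'))| ≤ C * h ^ 3 := by
    have := (F.e_le m' _).trans cm
    simp only [map_sub, map_smul, smul_eq_mul] at this
    rw [abs_neg, hhabs] at this
    exact this.trans (mul_le_mul_of_nonneg_right hCA (by positivity))
  have h4' : -(η / 4) ≤ σ * F.e m' (D2 A (F.b m') (F.b m')) := by
    simpa using h4
  have hC3 : C * h ^ 3 ≤ η / 4 * h ^ 2 := by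
    calc C * h ^ 3 = (C * h) * h ^ 2 := by ring
      _ ≤ η / 4 * h ^ 2 := mul_le_mul_of_nonneg_right hhC2 (by positivity)
  have h5 : -(η / 4) * h ^ 2 ≤ σ * F.e m' (D2 A (F.b m') (F.b m')) * h ^ 2 :=
    mul_le_mul_of_nonneg_right h4' (by positivity)
  rw [abs_le] at kp km
  rw [abs_lt] at hP
  have hηh : 0 < η * h ^ 2 := by positivity
  clear_value C δ h S M v η
  generalize F.e m (A (fun _ => x)) = P0 at *
  generalize F.e m' (A (fun _ => x)) = P1 at *
  generalize F.e m' (A (fun _ => x + h • F.b m')) = Pp at *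
  generalize F.e m' (A (fun _ => x + (-h) • F.b m')) = Pm at *
  generalize F.e m' (D1 A (F.b m')) = L1 at *
  generalize F.e m' (D2 A (F.b m') (F.b m')) = Q at *
  have hsq : η * (a + h) ^ 2 + η * (a - h) ^ 2 = 2 * (η * a ^ 2) + 2 * (η * h ^ 2) := by ring
  have hm1 : -h * L1 = -(h * L1) := by ring
  have hm2 : (-h) ^ 2 * Q = h ^ 2 * Q := by ring
  rw [hm1, hm2] at km
  obtain ⟨kp1, kp2⟩ := kp
  obtain ⟨km1, km2⟩ := km
  obtain ⟨hP1, hP2⟩ := hP
  rcases hσσ with hσ' | hσ'
  · rw [hσ'] at vp vm hr h5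
    have h5' : -(η / 4) * h ^ 2 ≤ h ^ 2 * Q := by linarith
    linarith
  · rw [hσ'] at vp vm hr h5
    have h5' : -(η / 4) * h ^ 2 ≤ -(h ^ 2 * Q) := by linarith
    linarith

include F in
/-- All polynomial numerical indices of a nontrivial space with a frame are `1`. -/
theorem polyIndex_eq_one [Nontrivial X] (k : ℕ) : polyIndex ℝ X k = 1 := by
  apply le_antisymm polyIndex_le_one
  apply le_polyIndex
  intro A hA
  rw [← hA]
  exact F.polyNorm_le A

end Frame

end Pool.Agent.Lib.MP_046d9d_an
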