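import Mathlib
import Pool.Agent.Lib.MP_046d9d_an.Basic

/-!
Intermediate value theorem for the polynomial numerical index along a path of equivalent norms on a
Banach space, from `n^(k)(X)` down to `0`.
-/

set_option autoImplicit false

open scoped Topology

namespace Pool.Agent.Lib.MP_046d9d_an

section path

variable {𝕜 : Type} [RCLike 𝕜] {E : Type} [AddCommGroup E] [Module 𝕜 E]
  {Z0 Z1 : Type} [NormedAddCommGroup Z0] [NormedSpace 𝕜 Z0] [NormedAddCommGroup Z1]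
  [NormedSpace 𝕜 Z1] (j0 : E →ₗ[𝕜] Z0) (j1 : E →ₗ[𝕜] Z1)

/-- The map `e ↦ ((1 - s) j0 e, s j1 e)` into the `ℓ₁`-sum. -/
noncomputable def iota (s : ℝ) : E →ₗ[𝕜] WithLp 1 (Z0 × Z1) :=
  (WithLp.linearEquiv 1 𝕜 (Z0 × Z1)).symm.toLinearMap ∘ₗ
    ((((1 - s : ℝ) : 𝕜) • j0).prod (((s : ℝ) : 𝕜) • j1))

lemma iota_apply (s : ℝ) (e : E) : iota j0 j1 s e =
    WithLp.toLp 1 (((1 - s : ℝ) : 𝕜) • j0 e, ((s : ℝ) : 𝕜) • j1 e) := rfl

lemma norm_iota {s : ℝ} (hs : s ∈ Set.Icc (0 : ℝ) 1) (e : E) :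
    ‖iota j0 j1 s e‖ = (1 - s) * ‖j0 e‖ + s * ‖j1 e‖ := by
  rw [iota_apply, WithLp.prod_norm_eq_of_L1]
  simp only [WithLp.toLp_fst, WithLp.toLp_snd, norm_smul, RCLike.norm_ofReal]
  rw [abs_of_nonneg (by linarith [hs.2] : (0 : ℝ) ≤ 1 - s), abs_of_nonneg hs.1]

variable (h0 : Function.Injective j0) (h1 : Function.Injective j1)
include h0 h1

lemma iota_inj {s : ℝ} (hs : s ∈ Set.Icc (0 : ℝ) 1) : Function.Injective (iota j0 j1 s) := by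
  rw [injective_iff_map_eq_zero]
  intro e he
  have h := norm_iota j0 j1 hs e
  rw [he, norm_zero] at h
  have e1 : 0 ≤ ‖j0 e‖ := norm_nonneg _
  have e2 : 0 ≤ ‖j1 e‖ := norm_nonneg _
  rcases lt_or_ge s 1 with hs1 | hs1
  · have : ‖j0 e‖ = 0 := by
      have h3 : 0 ≤ s * ‖j1 e‖ := mul_nonneg hs.1 e2
      have h4 : (1 - s) * ‖j0 e‖ ≤ 0 := by linarith
      nlinarith
    rw [norm_eq_zero] at this
    exact (injective_iff_map_eq_zero j0).mp h0 e this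
  · have hs' : s = 1 := le_antisymm hs.2 hs1
    subst hs'
    have : ‖j1 e‖ = 0 := by linarith
    rw [norm_eq_zero] at this
    exact (injective_iff_map_eq_zero j1).mp h1 e this

/-- The identification of `E` with the range of `iota`. -/
noncomputable def eqv {s : ℝ} (hs : s ∈ Set.Icc (0 : ℝ) 1) :
    E ≃ₗ[𝕜] LinearMap.range (iota j0 j1 s) :=
  LinearEquiv.ofInjective (iota j0 j1 s) (iota_inj j0 j1 h0 h1 hs)

lemma norm_eqv {s : ℝ} (hs : s ∈ Set.Icc (0 : ℝ) 1) (e : E) :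
    ‖eqv j0 j1 h0 h1 hs e‖ = (1 - s) * ‖j0 e‖ + s * ‖j1 e‖ :=
  norm_iota j0 j1 hs e

omit h0 h1 [NormedAddCommGroup Z0] [NormedSpace 𝕜 Z0] [NormedAddCommGroup Z1] [NormedSpace 𝕜 Z1] [AddCommGroup E] [Module 𝕜 E] in
lemma eq_of_conv {a b : 𝕜} {α β s : ℝ} (ha : ‖a‖ ≤ α) (hb : ‖b‖ ≤ β) (hs0 : 0 < s) (hs1 : s < 1)
    (h : ((1 - s : ℝ) : 𝕜) * a + (s : 𝕜) * b = (((1 - s) * α + s * β : ℝ) : 𝕜)) :
    a = (α : 𝕜) ∧ b = (β : 𝕜) := by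
  have h2 := congrArg RCLike.re h
  rw [map_add, RCLike.re_ofReal_mul, RCLike.re_ofReal_mul, RCLike.ofReal_re] at h2
  have e1 : RCLike.re a ≤ α := (RCLike.re_le_norm a).trans ha
  have e2 : RCLike.re b ≤ β := (RCLike.re_le_norm b).trans hb
  have e3 : RCLike.re a = α := by nlinarith
  have e4 : RCLike.re b = β := by nlinarith
  constructor
  · rw [← e3]
    exact (RCLike.re_eq_self_of_le (by rw [e3]; exact ha)).symm
  · rw [← e4]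
    exact (RCLike.re_eq_self_of_le (by rw [e4]; exact hb)).symm

lemma split {s : ℝ} (hs : s ∈ Set.Icc (0 : ℝ) 1)
    (g : LinearMap.range (iota j0 j1 s) →L[𝕜] 𝕜) (hg : ‖g‖ = 1) (e : E)
    (hge : g (eqv j0 j1 h0 h1 hs e) = ((‖eqv j0 j1 h0 h1 hs e‖ : ℝ) : 𝕜)) :
    ∃ (g0 : Z0 →L[𝕜] 𝕜) (g1 : Z1 →L[𝕜] 𝕜), ‖g0‖ ≤ 1 ∧ ‖g1‖ ≤ 1 ∧ g0 (j0 e) = (‖j0 e‖ : 𝕜) ∧
      g1 (j1 e) = (‖j1 e‖ : 𝕜) ∧ ∀ e', g (eqv j0 j1 h0 h1 hs e') =
        ((1 - s : ℝ) : 𝕜) * g0 (j0 e') + (s : 𝕜) * g1 (j1 e') := by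
  obtain ⟨G, hG, hGn⟩ := exists_extension_norm_eq (LinearMap.range (iota j0 j1 s)) g
  rw [hg] at hGn
  let P := (WithLp.prodContinuousLinearEquiv 1 𝕜 Z0 Z1).symm
  let G0 : Z0 →L[𝕜] 𝕜 := (G.comp (P : (Z0 × Z1) →L[𝕜] WithLp 1 (Z0 × Z1))).comp
    (ContinuousLinearMap.inl 𝕜 Z0 Z1)
  let G1 : Z1 →L[𝕜] 𝕜 := (G.comp (P : (Z0 × Z1) →L[𝕜] WithLp 1 (Z0 × Z1))).comp
    (ContinuousLinearMap.inr 𝕜 Z0 Z1)
  have hG0 : ‖G0‖ ≤ 1 := by
    refine ContinuousLinearMap.opNorm_le_bound _ zero_le_one (fun z => ?_)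
    have := G.le_opNorm (WithLp.toLp 1 (z, (0 : Z1)))
    rw [hGn, WithLp.prod_norm_eq_of_L1] at this
    change ‖G (WithLp.toLp 1 (z, (0 : Z1)))‖ ≤ _
    simpa using this
  have hG1 : ‖G1‖ ≤ 1 := by
    refine ContinuousLinearMap.opNorm_le_bound _ zero_le_one (fun z => ?_)
    have := G.le_opNorm (WithLp.toLp 1 ((0 : Z0), z))
    rw [hGn, WithLp.prod_norm_eq_of_L1] at this
    change ‖G (WithLp.toLp 1 ((0 : Z0), z))‖ ≤ _
    simpa using this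
  have hsum : ∀ e', g (eqv j0 j1 h0 h1 hs e') =
      ((1 - s : ℝ) : 𝕜) * G0 (j0 e') + (s : 𝕜) * G1 (j1 e') := by
    intro e'
    rw [← hG]
    have e1 : ((eqv j0 j1 h0 h1 hs e' : LinearMap.range (iota j0 j1 s)) : WithLp 1 (Z0 × Z1))
        = ((1 - s : ℝ) : 𝕜) • WithLp.toLp 1 (j0 e', (0 : Z1))
          + (s : 𝕜) • WithLp.toLp 1 ((0 : Z0), j1 e') := by
      change iota j0 j1 s e' = _
      rw [iota_apply, ← WithLp.toLp_smul, ← WithLp.toLp_smul, ← WithLp.toLp_add]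
      simp
    rw [e1, map_add, map_smul, map_smul]
    rfl
  have b0 : ‖G0 (j0 e)‖ ≤ ‖j0 e‖ := by
    have := G0.le_opNorm (j0 e)
    exact this.trans (by simpa using mul_le_mul_of_nonneg_right hG0 (norm_nonneg (j0 e)))
  have b1 : ‖G1 (j1 e)‖ ≤ ‖j1 e‖ := by
    have := G1.le_opNorm (j1 e)
    exact this.trans (by simpa using mul_le_mul_of_nonneg_right hG1 (norm_nonneg (j1 e)))
  have hkey : ((1 - s : ℝ) : 𝕜) * G0 (j0 e) + (s : 𝕜) * G1 (j1 e)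
      = (((1 - s) * ‖j0 e‖ + s * ‖j1 e‖ : ℝ) : 𝕜) := by
    rw [← hsum e, hge, norm_eqv]
  rcases eq_or_lt_of_le hs.1 with hs0 | hs0
  · -- s = 0
    obtain ⟨g1, hg1, hg1e⟩ := exists_dual_vector'' 𝕜 (j1 e)
    subst hs0
    refine ⟨G0, g1, hG0, hg1, ?_, hg1e, ?_⟩
    · simpa using hkey
    · intro e'
      rw [hsum e']
      simp
  rcases eq_or_lt_of_le hs.2 with hs1 | hs1
  · -- s = 1
    obtain ⟨g0, hg0, hg0e⟩ := exists_dual_vector'' 𝕜 (j0 e)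
    subst hs1
    refine ⟨g0, G1, hg0, hG1, hg0e, ?_, ?_⟩
    · simpa using hkey
    · intro e'
      rw [hsum e']
      simp
  · obtain ⟨c0, c1⟩ := eq_of_conv b0 b1 hs0 hs1 hkey
    exact ⟨G0, G1, hG0, hG1, c0, c1, hsum⟩

variable [Nontrivial E]

lemma key_ineq {k : ℕ} (hk : k ≠ 0) {M : ℝ} (hM : 1 ≤ M)
    (hcomp : ∀ e, ‖j0 e‖ ≤ M * ‖j1 e‖ ∧ ‖j1 e‖ ≤ M * ‖j0 e‖) {s t : ℝ}
    (hs : s ∈ Set.Icc (0 : ℝ) 1) (ht : t ∈ Set.Icc (0 : ℝ) 1) :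
    polyIndex 𝕜 (LinearMap.range (iota j0 j1 s)) k ≤
      (1 + M * |s - t|) ^ (2 * k + 1) *
        (polyIndex 𝕜 (LinearMap.range (iota j0 j1 t)) k + 2 * M * |s - t|) := by
  let es := eqv j0 j1 h0 h1 hs
  let et := eqv j0 j1 h0 h1 ht
  have nt : Nontrivial (LinearMap.range (iota j0 j1 t)) := et.toEquiv.symm.nontrivial
  have nrm : ∀ (r : ℝ) (hr : r ∈ Set.Icc (0 : ℝ) 1) (e : E),
      ‖j0 e‖ ≤ M * ‖eqv j0 j1 h0 h1 hr e‖ ∧ ‖j1 e‖ ≤ M * ‖eqv j0 j1 h0 h1 hr e‖ := by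
    intro r hr e
    rw [norm_eqv]
    obtain ⟨c1, c2⟩ := hcomp e
    have p0 := norm_nonneg (j0 e)
    have p1 := norm_nonneg (j1 e)
    have q0 : ‖j0 e‖ ≤ M * ‖j0 e‖ := by nlinarith
    have q1 : ‖j1 e‖ ≤ M * ‖j1 e‖ := by nlinarith
    have r0 : 0 ≤ 1 - r := by linarith [hr.2]
    have r1 : 0 ≤ r := hr.1
    constructor
    · calc ‖j0 e‖ = (1 - r) * ‖j0 e‖ + r * ‖j0 e‖ := by ring
        _ ≤ (1 - r) * (M * ‖j0 e‖) + r * (M * ‖j1 e‖) :=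
            add_le_add (mul_le_mul_of_nonneg_left q0 r0) (mul_le_mul_of_nonneg_left c1 r1)
        _ = M * ((1 - r) * ‖j0 e‖ + r * ‖j1 e‖) := by ring
    · calc ‖j1 e‖ = (1 - r) * ‖j1 e‖ + r * ‖j1 e‖ := by ring
        _ ≤ (1 - r) * (M * ‖j0 e‖) + r * (M * ‖j1 e‖) :=
            add_le_add (mul_le_mul_of_nonneg_left c2 r0) (mul_le_mul_of_nonneg_left q1 r1)
        _ = M * ((1 - r) * ‖j0 e‖ + r * ‖j1 e‖) := by ring
  have dif : ∀ (r r' : ℝ) (hr : r ∈ Set.Icc (0 : ℝ) 1) (hr' : r' ∈ Set.Icc (0 : ℝ) 1) (e : E),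
      ‖eqv j0 j1 h0 h1 hr e‖ ≤ (1 + M * |r - r'|) * ‖eqv j0 j1 h0 h1 hr' e‖ := by
    intro r r' hr hr' e
    obtain ⟨c0, c1⟩ := nrm r' hr' e
    have p0 := norm_nonneg (j0 e)
    have p1 := norm_nonneg (j1 e)
    have : ‖eqv j0 j1 h0 h1 hr e‖ - ‖eqv j0 j1 h0 h1 hr' e‖ = (r - r') * (‖j1 e‖ - ‖j0 e‖) := by
      rw [norm_eqv, norm_eqv]; ring
    have h3 : |‖j1 e‖ - ‖j0 e‖| ≤ M * ‖eqv j0 j1 h0 h1 hr' e‖ := by
      rw [abs_le]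
      constructor <;> linarith
    have h4 : (r - r') * (‖j1 e‖ - ‖j0 e‖) ≤ |r - r'| * (M * ‖eqv j0 j1 h0 h1 hr' e‖) := by
      calc (r - r') * (‖j1 e‖ - ‖j0 e‖) ≤ |(r - r') * (‖j1 e‖ - ‖j0 e‖)| := le_abs_self _
        _ = |r - r'| * |‖j1 e‖ - ‖j0 e‖| := abs_mul _ _
        _ ≤ _ := mul_le_mul_of_nonneg_left h3 (abs_nonneg _)
    linarith
  have hq : 0 < 1 + M * |s - t| := by positivity
  let T := (et.symm.trans es).toContinuousLinearEquivOfBounds (1 + M * |s - t|) (1 + M * |s - t|)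
    (by
      intro x
      obtain ⟨e, rfl⟩ := et.surjective x
      have hT : (et.symm.trans es) (et e) = es e := by simp
      rw [hT]
      exact dif s t hs ht e)
    (by
      intro x
      obtain ⟨e, rfl⟩ := es.surjective x
      have hT : (et.symm.trans es).symm (es e) = et e := by simp
      rw [hT, abs_sub_comm]
      exact dif t s ht hs e)
  have hT : ∀ e, T (et e) = es e := by
    intro e
    change (et.symm.trans es) (et e) = es e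
    simp
  refine perturb hk T hq (by positivity) ?_ ?_ ?_
  · intro x
    obtain ⟨e, rfl⟩ := et.surjective x
    rw [hT]
    exact dif s t hs ht e
  · intro x
    obtain ⟨e, rfl⟩ := et.surjective x
    rw [hT, abs_sub_comm]
    exact dif t s ht hs e
  · intro x g hx hg hgx
    obtain ⟨e, rfl⟩ := et.surjective x
    rw [hT] at hgx
    obtain ⟨g0, g1, hg0, hg1, he0, he1, hsum⟩ := split j0 j1 h0 h1 hs g hg e hgx
    let F : WithLp 1 (Z0 × Z1) →L[𝕜] 𝕜 :=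
      (g0.coprod g1).comp (WithLp.prodContinuousLinearEquiv 1 𝕜 Z0 Z1 : WithLp 1 (Z0 × Z1) →L[𝕜] Z0 × Z1)
    have hF : ∀ z : WithLp 1 (Z0 × Z1), F z = g0 z.fst + g1 z.snd := fun z => rfl
    let f : LinearMap.range (iota j0 j1 t) →L[𝕜] 𝕜 :=
      F.comp (LinearMap.range (iota j0 j1 t)).subtypeL
    have hf : ∀ e', f (et e') = ((1 - t : ℝ) : 𝕜) * g0 (j0 e') + (t : 𝕜) * g1 (j1 e') := by
      intro e'
      change F (iota j0 j1 t e') = _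
      rw [hF, iota_apply]
      simp
    refine ⟨f, ?_, ?_, ?_⟩
    · refine ContinuousLinearMap.opNorm_le_bound _ zero_le_one (fun z => ?_)
      change ‖F (z : WithLp 1 (Z0 × Z1))‖ ≤ 1 * ‖(z : WithLp 1 (Z0 × Z1))‖
      rw [hF, WithLp.prod_norm_eq_of_L1, one_mul]
      refine (norm_add_le _ _).trans (add_le_add ?_ ?_)
      · exact (g0.le_opNorm _).trans (by
          simpa using mul_le_mul_of_nonneg_right hg0 (norm_nonneg (z : WithLp 1 (Z0 × Z1)).fst))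
      · exact (g1.le_opNorm _).trans (by
          simpa using mul_le_mul_of_nonneg_right hg1 (norm_nonneg (z : WithLp 1 (Z0 × Z1)).snd))
    · have hn : ‖et e‖ = (1 - t) * ‖j0 e‖ + t * ‖j1 e‖ := norm_eqv j0 j1 h0 h1 ht e
      rw [hf e, he0, he1, hn]
      push_cast
      ring
    · intro z
      obtain ⟨e', rfl⟩ := et.surjective z
      rw [hT, hf e']
      have hse : g (es e') = ((1 - s : ℝ) : 𝕜) * g0 (j0 e') + (s : 𝕜) * g1 (j1 e') := hsum e'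
      rw [hse]
      have e1 : ((1 - s : ℝ) : 𝕜) * g0 (j0 e') + (s : 𝕜) * g1 (j1 e')
          - (((1 - t : ℝ) : 𝕜) * g0 (j0 e') + (t : 𝕜) * g1 (j1 e'))
          = ((s - t : ℝ) : 𝕜) * (g1 (j1 e') - g0 (j0 e')) := by
        push_cast
        ring
      rw [e1, norm_mul, RCLike.norm_ofReal]
      obtain ⟨c0, c1⟩ := nrm t ht e'
      have b0 : ‖g0 (j0 e')‖ ≤ ‖j0 e'‖ := (g0.le_opNorm _).trans (by
          simpa using mul_le_mul_of_nonneg_right hg0 (norm_nonneg (j0 e')))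
      have b1 : ‖g1 (j1 e')‖ ≤ ‖j1 e'‖ := (g1.le_opNorm _).trans (by
          simpa using mul_le_mul_of_nonneg_right hg1 (norm_nonneg (j1 e')))
      have b2 : ‖g1 (j1 e') - g0 (j0 e')‖ ≤ 2 * M * ‖et e'‖ := by
        refine (norm_sub_le _ _).trans ?_
        have c0' : ‖j0 e'‖ ≤ M * ‖et e'‖ := c0
        have c1' : ‖j1 e'‖ ≤ M * ‖et e'‖ := c1
        linarith
      calc |s - t| * ‖g1 (j1 e') - g0 (j0 e')‖ ≤ |s - t| * (2 * M * ‖et e'‖) :=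
            mul_le_mul_of_nonneg_left b2 (abs_nonneg _)
        _ = 2 * M * |s - t| * ‖et e'‖ := by ring

lemma continuousOn_index {k : ℕ} (hk : k ≠ 0) {M : ℝ} (hM : 1 ≤ M)
    (hcomp : ∀ e, ‖j0 e‖ ≤ M * ‖j1 e‖ ∧ ‖j1 e‖ ≤ M * ‖j0 e‖) :
    ContinuousOn (fun s => polyIndex 𝕜 (LinearMap.range (iota j0 j1 s)) k) (Set.Icc (0 : ℝ) 1) := by
  intro t ht
  have hab : Filter.Tendsto (fun s : ℝ => |s - t|) (𝓝[Set.Icc (0 : ℝ) 1] t) (𝓝 0) := by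
    apply tendsto_nhdsWithin_of_tendsto_nhds
    have : Continuous (fun s : ℝ => |s - t|) := by fun_prop
    have := this.tendsto t
    simpa using this
  have hup : Filter.Tendsto (fun s : ℝ => (1 + M * |s - t|) ^ (2 * k + 1) *
        (polyIndex 𝕜 (LinearMap.range (iota j0 j1 t)) k + 2 * M * |s - t|))
        (𝓝[Set.Icc (0 : ℝ) 1] t) (𝓝 (polyIndex 𝕜 (LinearMap.range (iota j0 j1 t)) k)) := by
    have h1' : Filter.Tendsto (fun s : ℝ => (1 + M * |s - t|) ^ (2 * k + 1))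
        (𝓝[Set.Icc (0 : ℝ) 1] t) (𝓝 ((1 + M * 0) ^ (2 * k + 1))) :=
      (tendsto_const_nhds.add (hab.const_mul M)).pow _
    have h2' : Filter.Tendsto (fun s : ℝ => (polyIndex 𝕜 (LinearMap.range (iota j0 j1 t)) k + 2 * M * |s - t|))
        (𝓝[Set.Icc (0 : ℝ) 1] t) (𝓝 (polyIndex 𝕜 (LinearMap.range (iota j0 j1 t)) k + 2 * M * 0)) :=
      tendsto_const_nhds.add (hab.const_mul (2 * M))
    have := h1'.mul h2'
    simpa using this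
  have hlo : Filter.Tendsto (fun s : ℝ => polyIndex 𝕜 (LinearMap.range (iota j0 j1 t)) k /
        (1 + M * |s - t|) ^ (2 * k + 1) - 2 * M * |s - t|)
        (𝓝[Set.Icc (0 : ℝ) 1] t) (𝓝 (polyIndex 𝕜 (LinearMap.range (iota j0 j1 t)) k)) := by
    have h1' : Filter.Tendsto (fun s : ℝ => (1 + M * |s - t|) ^ (2 * k + 1))
        (𝓝[Set.Icc (0 : ℝ) 1] t) (𝓝 ((1 + M * 0) ^ (2 * k + 1))) :=
      (tendsto_const_nhds.add (hab.const_mul M)).pow _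
    have h2' : Filter.Tendsto (fun s : ℝ => polyIndex 𝕜 (LinearMap.range (iota j0 j1 t)) k /
        (1 + M * |s - t|) ^ (2 * k + 1)) (𝓝[Set.Icc (0 : ℝ) 1] t)
        (𝓝 (polyIndex 𝕜 (LinearMap.range (iota j0 j1 t)) k / (1 + M * 0) ^ (2 * k + 1))) :=
      tendsto_const_nhds.div h1' (by simp)
    have := h2'.sub (hab.const_mul (2 * M))
    simpa using this
  refine tendsto_of_tendsto_of_tendsto_of_le_of_le' hlo hup ?_ ?_
  · filter_upwards [self_mem_nhdsWithin] with s hs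
    have := key_ineq j0 j1 h0 h1 hk hM hcomp (s := t) (t := s) ht hs
    rw [abs_sub_comm] at this
    have hq : 0 < (1 + M * |s - t|) ^ (2 * k + 1) := by positivity
    rw [sub_le_iff_le_add, div_le_iff₀ hq, mul_comm]
    exact this
  · filter_upwards [self_mem_nhdsWithin] with s hs
    exact key_ineq j0 j1 h0 h1 hk hM hcomp hs ht

/-- All values between the indices of the two end spaces are indices. -/
lemma ivt {k : ℕ} (hk : k ≠ 0) {M : ℝ} (hM : 1 ≤ M)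
    (hcomp : ∀ e, ‖j0 e‖ ≤ M * ‖j1 e‖ ∧ ‖j1 e‖ ≤ M * ‖j0 e‖)
    (hcs : ∀ s ∈ Set.Icc (0 : ℝ) 1, CompleteSpace (LinearMap.range (iota j0 j1 s))) {a b : ℝ}
    (ha : polyIndex 𝕜 (LinearMap.range (iota j0 j1 0)) k ≤ a)
    (hb : b ≤ polyIndex 𝕜 (LinearMap.range (iota j0 j1 1)) k) :
    Set.Icc a b ⊆ indexRange.{0} 𝕜 k := by
  intro c hc
  have hI : Set.Icc (polyIndex 𝕜 (LinearMap.range (iota j0 j1 0)) k)
      (polyIndex 𝕜 (LinearMap.range (iota j0 j1 1)) k) ⊆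
      (fun s => polyIndex 𝕜 (LinearMap.range (iota j0 j1 s)) k) '' Set.Icc (0 : ℝ) 1 :=
    intermediate_value_Icc zero_le_one (continuousOn_index j0 j1 h0 h1 hk hM hcomp)
  obtain ⟨s, hs, rfl⟩ := hI ⟨ha.trans hc.1, hc.2.trans hb⟩
  have es := eqv j0 j1 h0 h1 hs
  exact ⟨LinearMap.range (iota j0 j1 s), inferInstance, inferInstance,
    hcs s hs, es.toEquiv.symm.nontrivial, rfl⟩

end path

section real

variable {X : Type} [NormedAddCommGroup X] [NormedSpace ℝ X]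

/-- The map `x ↦ ((φ₁ x, φ₂ x), x - φ₁ x u₁ - φ₂ x u₂)`. -/
noncomputable def jz (φ₁ φ₂ : X →L[ℝ] ℝ) (u₁ u₂ : X) : X →ₗ[ℝ] EuclideanSpace ℝ (Fin 2) × X where
  toFun x := (!₂[φ₁ x, φ₂ x], x - φ₁ x • u₁ - φ₂ x • u₂)
  map_add' x y := by
    ext i
    · fin_cases i <;> simp
    · simp only [map_add, Prod.snd_add, add_smul]
      abel
  map_smul' c x := by
    ext i
    · fin_cases i <;> simp
    · simp only [map_smul, smul_eq_mul, RingHom.id_apply, Prod.smul_snd, smul_sub, mul_smul]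

lemma jz_norm (φ₁ φ₂ : X →L[ℝ] ℝ) (u₁ u₂ x : X) : ‖jz φ₁ φ₂ u₁ u₂ x‖ =
    max (Real.sqrt (φ₁ x ^ 2 + φ₂ x ^ 2)) ‖x - φ₁ x • u₁ - φ₂ x • u₂‖ := by
  change ‖((!₂[φ₁ x, φ₂ x] : EuclideanSpace ℝ (Fin 2)), x - φ₁ x • u₁ - φ₂ x • u₂)‖ = _
  rw [Prod.norm_mk, EuclideanSpace.norm_eq]
  simp [Fin.sum_univ_two]

variable {φ₁ φ₂ : X →L[ℝ] ℝ} {u₁ u₂ : X}

lemma jz_comparison : ∃ M : ℝ, 1 ≤ M ∧ ∀ e : X, ‖jz φ₁ φ₂ u₁ u₂ e‖ ≤ M * ‖(LinearMap.id : X →ₗ[ℝ] X) e‖ ∧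
    ‖(LinearMap.id : X →ₗ[ℝ] X) e‖ ≤ M * ‖jz φ₁ φ₂ u₁ u₂ e‖ := by
  set a := ‖φ₁‖ with ha
  set b := ‖φ₂‖ with hb
  set c := ‖u₁‖ with hc
  set d := ‖u₂‖ with hd
  have ha0 : 0 ≤ a := norm_nonneg _
  have hb0 : 0 ≤ b := norm_nonneg _
  have hc0 : 0 ≤ c := norm_nonneg _
  have hd0 : 0 ≤ d := norm_nonneg _
  refine ⟨1 + a + b + c + d + a * c + b * d, by nlinarith [mul_nonneg ha0 hc0, mul_nonneg hb0 hd0],
    fun e => ⟨?_, ?_⟩⟩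
  · rw [jz_norm, LinearMap.id_apply]
    have e1 : |φ₁ e| ≤ a * ‖e‖ := φ₁.le_opNorm e
    have e2 : |φ₂ e| ≤ b * ‖e‖ := φ₂.le_opNorm e
    have hn := norm_nonneg e
    apply max_le
    · apply Real.sqrt_le_iff.2 ⟨by positivity, ?_⟩
      have e3 : φ₁ e ^ 2 ≤ (a * ‖e‖) ^ 2 := by
        rw [← sq_abs (φ₁ e)]; gcongr
      have e4 : φ₂ e ^ 2 ≤ (b * ‖e‖) ^ 2 := by
        rw [← sq_abs (φ₂ e)]; gcongr
      have e5 : (a * ‖e‖) ^ 2 + (b * ‖e‖) ^ 2 ≤ ((a + b) * ‖e‖) ^ 2 := by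
        have : 0 ≤ a * ‖e‖ * (b * ‖e‖) := by positivity
        nlinarith
      have e6 : ((a + b) * ‖e‖) ^ 2 ≤ ((1 + a + b + c + d + a * c + b * d) * ‖e‖) ^ 2 := by
        apply pow_le_pow_left₀ (by positivity)
        apply mul_le_mul_of_nonneg_right _ hn
        nlinarith [mul_nonneg ha0 hc0, mul_nonneg hb0 hd0]
      linarith
    · calc ‖e - φ₁ e • u₁ - φ₂ e • u₂‖ ≤ ‖e‖ + ‖φ₁ e • u₁‖ + ‖φ₂ e • u₂‖ :=
            (norm_sub_le _ _).trans (by gcongr; exact norm_sub_le _ _)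
        _ ≤ ‖e‖ + (a * ‖e‖) * c + (b * ‖e‖) * d := by
            rw [norm_smul, norm_smul, Real.norm_eq_abs, Real.norm_eq_abs]
            gcongr
        _ = (1 + a * c + b * d) * ‖e‖ := by ring
        _ ≤ _ := mul_le_mul_of_nonneg_right (by linarith) hn
  · rw [LinearMap.id_apply]
    set N := ‖jz φ₁ φ₂ u₁ u₂ e‖ with hN
    have hN0 : 0 ≤ N := norm_nonneg _
    have hN' := jz_norm φ₁ φ₂ u₁ u₂ e
    rw [← hN] at hN'
    have e1 : Real.sqrt (φ₁ e ^ 2 + φ₂ e ^ 2) ≤ N := by rw [hN']; exact le_max_left _ _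
    have e2 : ‖e - φ₁ e • u₁ - φ₂ e • u₂‖ ≤ N := by rw [hN']; exact le_max_right _ _
    have e3 : |φ₁ e| ≤ N := by
      refine le_trans ?_ e1
      apply Real.le_sqrt_of_sq_le
      rw [sq_abs]; nlinarith [sq_nonneg (φ₂ e)]
    have e4 : |φ₂ e| ≤ N := by
      refine le_trans ?_ e1
      apply Real.le_sqrt_of_sq_le
      rw [sq_abs]; nlinarith [sq_nonneg (φ₁ e)]
    have e5 : e = (e - φ₁ e • u₁ - φ₂ e • u₂) + φ₁ e • u₁ + φ₂ e • u₂ := by abel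
    calc ‖e‖ = ‖(e - φ₁ e • u₁ - φ₂ e • u₂) + φ₁ e • u₁ + φ₂ e • u₂‖ := by rw [← e5]
      _ ≤ ‖e - φ₁ e • u₁ - φ₂ e • u₂‖ + ‖φ₁ e • u₁‖ + ‖φ₂ e • u₂‖ :=
          (norm_add_le _ _).trans (by gcongr; exact norm_add_le _ _)
      _ ≤ N + N * c + N * d := by
          rw [norm_smul, norm_smul, Real.norm_eq_abs, Real.norm_eq_abs]
          gcongr
      _ = (1 + c + d) * N := by ring
      _ ≤ _ := mul_le_mul_of_nonneg_right
          (by nlinarith [mul_nonneg ha0 hc0, mul_nonneg hb0 hd0]) hN0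

lemma jz_inj : Function.Injective (jz φ₁ φ₂ u₁ u₂) := by
  obtain ⟨M, hM, h⟩ := jz_comparison (φ₁ := φ₁) (φ₂ := φ₂) (u₁ := u₁) (u₂ := u₂)
  rw [injective_iff_map_eq_zero]
  intro e he
  have := (h e).2
  rw [he, norm_zero, mul_zero, LinearMap.id_apply] at this
  exact norm_le_zero_iff.1 this

/-- The skew operator `J`. -/
noncomputable def skewJ (φ₁ φ₂ : X →L[ℝ] ℝ) (u₁ u₂ : X) (x : X) : X := φ₁ x • u₂ - φ₂ x • u₁

lemma jz_skew (h11 : φ₁ u₁ = 1) (h12 : φ₁ u₂ = 0) (h21 : φ₂ u₁ = 0) (h22 : φ₂ u₂ = 1)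
    (θ : ℝ) (x : X) :
    ‖jz φ₁ φ₂ u₁ u₂ (x + θ • skewJ φ₁ φ₂ u₁ u₂ x)‖ ≤ (1 + θ ^ 2) * ‖jz φ₁ φ₂ u₁ u₂ x‖ := by
  have a1 : φ₁ (x + θ • skewJ φ₁ φ₂ u₁ u₂ x) = φ₁ x - θ * φ₂ x := by
    simp only [skewJ, map_add, map_smul, map_sub, smul_eq_mul, h11, h12]; ring
  have a2 : φ₂ (x + θ • skewJ φ₁ φ₂ u₁ u₂ x) = φ₂ x + θ * φ₁ x := by
    simp only [skewJ, map_add, map_smul, map_sub, smul_eq_mul, h21, h22]; ring
  have a3 : x + θ • skewJ φ₁ φ₂ u₁ u₂ x - (φ₁ x - θ * φ₂ x) • u₁ - (φ₂ x + θ * φ₁ x) • u₂ =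
      x - φ₁ x • u₁ - φ₂ x • u₂ := by
    simp only [skewJ, smul_sub, sub_smul, add_smul, mul_smul]
    abel
  rw [jz_norm, jz_norm, a1, a2, a3]
  have h1 : 0 ≤ θ ^ 2 := sq_nonneg θ
  apply max_le
  · have e1 : (φ₁ x - θ * φ₂ x) ^ 2 + (φ₂ x + θ * φ₁ x) ^ 2 =
        (1 + θ ^ 2) * (φ₁ x ^ 2 + φ₂ x ^ 2) := by ring
    rw [e1, Real.sqrt_mul (by positivity)]
    have e2 : Real.sqrt (1 + θ ^ 2) ≤ 1 + θ ^ 2 := by
      apply Real.sqrt_le_iff.2 ⟨by positivity, by nlinarith⟩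
    apply mul_le_mul e2 (le_max_left _ _) (Real.sqrt_nonneg _) (by positivity)
  · calc ‖x - φ₁ x • u₁ - φ₂ x • u₂‖ ≤ max (Real.sqrt (φ₁ x ^ 2 + φ₂ x ^ 2))
          ‖x - φ₁ x • u₁ - φ₂ x • u₂‖ := le_max_right _ _
      _ ≤ _ := by
        have : 0 ≤ max (Real.sqrt (φ₁ x ^ 2 + φ₂ x ^ 2)) ‖x - φ₁ x • u₁ - φ₂ x • u₂‖ :=
          (Real.sqrt_nonneg _).trans (le_max_left _ _)
        nlinarith

/-- The polynomial `x ↦ φ₁(x)^(k-1) (φ₁(x) v₂ - φ₂(x) v₁)` on a space `Y`. -/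
noncomputable def skewPoly {Y : Type} [NormedAddCommGroup Y] [NormedSpace ℝ Y] (m : ℕ)
    (ψ₁ ψ₂ : Y →L[ℝ] ℝ) (v₁ v₂ : Y) : ContinuousMultilinearMap ℝ (fun _ : Fin (m + 1) => Y) Y :=
  rankOne (m + 1) ψ₁ v₂ -
    (ContinuousLinearMap.toSpanSingleton ℝ v₁).compContinuousMultilinearMap
      ((ContinuousMultilinearMap.mkPiAlgebra ℝ (Fin (m + 1)) ℝ).compContinuousLinearMap
        (fun i => if i = 0 then ψ₂ else ψ₁))

lemma skewPoly_apply {Y : Type} [NormedAddCommGroup Y] [NormedSpace ℝ Y] (m : ℕ)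
    (ψ₁ ψ₂ : Y →L[ℝ] ℝ) (v₁ v₂ x : Y) :
    skewPoly m ψ₁ ψ₂ v₁ v₂ (fun _ => x) = ψ₁ x ^ m • skewJ ψ₁ ψ₂ v₁ v₂ x := by
  unfold skewPoly
  rw [sub_apply, rankOne_apply]
  have : ((ContinuousLinearMap.toSpanSingleton ℝ v₁).compContinuousMultilinearMap
      ((ContinuousMultilinearMap.mkPiAlgebra ℝ (Fin (m + 1)) ℝ).compContinuousLinearMap
        (fun i => if i = 0 then ψ₂ else ψ₁))) (fun _ => x) = (ψ₂ x * ψ₁ x ^ m) • v₁ := by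
    simp [ContinuousLinearMap.toSpanSingleton_apply, Fin.prod_univ_succ, Fin.succ_ne_zero]
  rw [this, skewJ, smul_sub, smul_smul, smul_smul, pow_succ]
  congr 2
  ring

/-- The index is zero if the norm is `‖j0 x‖`. -/
lemma index_zero {Y : Type} [NormedAddCommGroup Y] [NormedSpace ℝ Y]
    (h11 : φ₁ u₁ = 1) (h12 : φ₁ u₂ = 0) (h21 : φ₂ u₁ = 0) (h22 : φ₂ u₂ = 1)
    (L : X ≃L[ℝ] Y) (hLn : ∀ e, ‖L e‖ = ‖jz φ₁ φ₂ u₁ u₂ e‖) (m : ℕ) :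
    polyIndex ℝ Y (m + 1) ≤ 0 := by
  set ψ₁ : Y →L[ℝ] ℝ :=
    φ₁.comp (L.symm : Y →L[ℝ] X) with hψ₁
  set ψ₂ : Y →L[ℝ] ℝ :=
    φ₂.comp (L.symm : Y →L[ℝ] X) with hψ₂
  have p1 : ∀ e, ψ₁ (L e) = φ₁ e := by intro e; simp [hψ₁]
  have p2 : ∀ e, ψ₂ (L e) = φ₂ e := by intro e; simp [hψ₂]
  have hJ : ∀ e, skewJ ψ₁ ψ₂ (L u₁) (L u₂) (L e) = L (skewJ φ₁ φ₂ u₁ u₂ e) := by
    intro e
    simp only [skewJ, p1, p2, map_sub, map_smul]
  have hu : ∀ a b : ℝ, ∀ u : X, φ₁ u = a → φ₂ u = b → u - a • u₁ - b • u₂ = 0 →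
      a ^ 2 + b ^ 2 = 1 → ‖L u‖ = 1 := by
    intro a b u ha hb hu hab
    rw [hLn, jz_norm, ha, hb, hu, hab, norm_zero]; simp
  have hu1 : ‖L u₁‖ = 1 := hu 1 0 u₁ h11 h21 (by simp) (by norm_num)
  have hu2 : ‖L u₂‖ = 1 := hu 0 1 u₂ h12 h22 (by simp) (by norm_num)
  have key := polyIndex_le' (skewPoly m ψ₁ ψ₂ (L u₁) (L u₂)) (V := 0) (K := 1) one_pos hu1
    (by
      rw [skewPoly_apply, hJ, p1, h11, one_pow, one_smul]
      have : skewJ φ₁ φ₂ u₁ u₂ u₁ = u₂ := by simp [skewJ, h11, h21]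
      rw [this, hu2])
    (by
      intro x f hx hf hfx
      obtain ⟨e, rfl⟩ := L.surjective x
      rw [skewPoly_apply, map_smul, hJ, norm_smul]
      have hz : f (L (skewJ φ₁ φ₂ u₁ u₂ e)) = 0 := by
        have hθ : ∀ θ : ℝ, θ * f (L (skewJ φ₁ φ₂ u₁ u₂ e)) ≤ θ ^ 2 := by
          intro θ
          have g1 : f (L (e + θ • skewJ φ₁ φ₂ u₁ u₂ e)) =
              1 + θ * f (L (skewJ φ₁ φ₂ u₁ u₂ e)) := by
            rw [map_add, map_add, map_smul, map_smul, hfx, smul_eq_mul]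
          have g2 := f.le_opNorm (L (e + θ • skewJ φ₁ φ₂ u₁ u₂ e))
          rw [hf, one_mul, hLn] at g2
          have g3 := jz_skew h11 h12 h21 h22 θ e
          rw [← hLn e, hx, mul_one] at g3
          have g4 := (le_abs_self (f (L (e + θ • skewJ φ₁ φ₂ u₁ u₂ e)))).trans (g2.trans g3)
          rw [g1] at g4
          linarith
        set c := f (L (skewJ φ₁ φ₂ u₁ u₂ e)) with hc
        have := hθ (c / 2)
        nlinarith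
      rw [hz, norm_zero, mul_zero])
  simpa using key

end real

theorem Icc_subset_indexRange {k : ℕ} (hk : 2 ≤ k) (X : Type) [NormedAddCommGroup X]
    [NormedSpace ℝ X] [CompleteSpace X] (φ₁ φ₂ : X →L[ℝ] ℝ) (u₁ u₂ : X)
    (h11 : φ₁ u₁ = 1) (h12 : φ₁ u₂ = 0) (h21 : φ₂ u₁ = 0) (h22 : φ₂ u₂ = 1) :
    Set.Icc 0 (polyIndex ℝ X k) ⊆ indexRange.{0} ℝ k := by
  have hk0 : k ≠ 0 := by omega
  have hX : Nontrivial X := by
    refine ⟨⟨u₁, 0, ?_⟩⟩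
    rintro rfl
    simp at h11
  obtain ⟨M, hM, hcomp⟩ := jz_comparison (φ₁ := φ₁) (φ₂ := φ₂) (u₁ := u₁) (u₂ := u₂)
  set j0 : X →ₗ[ℝ] EuclideanSpace ℝ (Fin 2) × X := jz φ₁ φ₂ u₁ u₂ with hj0
  set j1 : X →ₗ[ℝ] X := LinearMap.id with hj1
  have i0 : Function.Injective j0 := jz_inj
  have i1 : Function.Injective j1 := fun _ _ h => h
  have hbd : ∀ (s : ℝ) (hs : s ∈ Set.Icc (0 : ℝ) 1) (e : X),
      ‖eqv j0 j1 i0 i1 hs e‖ ≤ M * ‖e‖ ∧ ‖e‖ ≤ M * ‖eqv j0 j1 i0 i1 hs e‖ := by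
    intro s hs e
    rw [norm_eqv]
    obtain ⟨c1, c2⟩ := hcomp e
    have hj1e : ‖j1 e‖ = ‖e‖ := rfl
    rw [hj1e] at c1 c2 ⊢
    have hn := norm_nonneg e
    have hn' := norm_nonneg (j0 e)
    have q1 : ‖e‖ ≤ M * ‖e‖ := by nlinarith
    have r0 : 0 ≤ 1 - s := by linarith [hs.2]
    have r1 : 0 ≤ s := hs.1
    constructor
    · nlinarith [mul_le_mul_of_nonneg_left c1 r0, mul_le_mul_of_nonneg_left q1 r1]
    · nlinarith [mul_le_mul_of_nonneg_left c2 r0, mul_le_mul_of_nonneg_left q1 r1]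
  have eL : ∀ (s : ℝ) (hs : s ∈ Set.Icc (0 : ℝ) 1), ∃ L : X ≃L[ℝ] LinearMap.range (iota j0 j1 s),
      ∀ e, L e = eqv j0 j1 i0 i1 hs e := by
    intro s hs
    refine ⟨(eqv j0 j1 i0 i1 hs).toContinuousLinearEquivOfBounds M M (fun x => (hbd s hs x).1) ?_,
      fun e => rfl⟩
    intro y
    obtain ⟨e, rfl⟩ := (eqv j0 j1 i0 i1 hs).surjective y
    rw [LinearEquiv.symm_apply_apply]
    exact (hbd s hs e).2
  have hcs : ∀ s ∈ Set.Icc (0 : ℝ) 1, CompleteSpace (LinearMap.range (iota j0 j1 s)) := by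
    intro s hs
    obtain ⟨L, -⟩ := eL s hs
    exact (completeSpace_congr (e := L.toEquiv) L.isUniformEmbedding).1 inferInstance
  have z0 : (0 : ℝ) ∈ Set.Icc (0 : ℝ) 1 := ⟨le_rfl, zero_le_one⟩
  have z1 : (1 : ℝ) ∈ Set.Icc (0 : ℝ) 1 := ⟨zero_le_one, le_rfl⟩
  refine ivt j0 j1 i0 i1 hk0 hM hcomp hcs ?_ ?_
  · -- index zero
    obtain ⟨m, rfl⟩ : ∃ m, k = m + 1 := ⟨k - 1, by omega⟩
    obtain ⟨L, hL⟩ := eL 0 z0
    have hLn : ∀ e, ‖L e‖ = ‖j0 e‖ := by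
      intro e
      rw [hL, norm_eqv]; ring
    exact index_zero h11 h12 h21 h22 L hLn m
  · -- index of `X`
    have hiso : ∀ e, ‖eqv j0 j1 i0 i1 z1 e‖ = ‖e‖ := by
      intro e
      rw [norm_eqv]
      have : ‖j1 e‖ = ‖e‖ := rfl
      rw [this]; ring
    exact (polyIndex_congr hk0 (⟨eqv j0 j1 i0 i1 z1, hiso⟩ : X ≃ₗᵢ[ℝ] _)).le

end Pool.Agent.Lib.MP_046d9d_an
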