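import Mathlib
import Pool.Agent.Lib.MP_046d9d_an.Frame

/-!
A concrete Banach space with a frame: the closure in `ℓ_∞(ℕ)` of the space of all bounded
`x : ℕ → ℝ` such that `x m = (x (par1 m) + x (par2 m)) / 2` for all large `m`.
-/

set_option autoImplicit false

open scoped BoundedContinuousFunction

namespace Pool.Agent.Lib.MP_046d9d_an

/-- The bump at `m`. -/
noncomputable def bumpFn (m : ℕ) (j : ℕ) : ℝ :=
  if j < m then 0 else if j = m then 1 else
    if h : 2 ≤ j then (bumpFn m (par1 j) + bumpFn m (par2 j)) / 2 else 0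
termination_by j
decreasing_by
  · exact par1_lt h
  · exact par2_lt h

lemma bumpFn_lt {m j : ℕ} (h : j < m) : bumpFn m j = 0 := by
  rw [bumpFn]; simp [h]

lemma bumpFn_self (m : ℕ) : bumpFn m m = 1 := by
  rw [bumpFn]; simp

lemma bumpFn_gt {m j : ℕ} (h : m < j) (h2 : 2 ≤ j) :
    bumpFn m j = (bumpFn m (par1 j) + bumpFn m (par2 j)) / 2 := by
  rw [bumpFn, if_neg (by omega), if_neg (by omega), dif_pos h2]

lemma bumpFn_abs (m j : ℕ) : |bumpFn m j| ≤ 1 := by
  induction j using Nat.strong_induction_on with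
  | _ j ih =>
    rw [bumpFn]
    split_ifs with h1 h2 h3
    · simp
    · simp
    · have a1 := ih _ (par1_lt h3)
      have a2 := ih _ (par2_lt h3)
      rw [abs_le] at *
      constructor <;> linarith [a1.1, a1.2, a2.1, a2.2]
    · simp

/-- The bump as a bounded function. -/
noncomputable def bump (m : ℕ) : ℕ →ᵇ ℝ :=
  BoundedContinuousFunction.ofNormedAddCommGroupDiscrete (bumpFn m) 1
    (fun j => by rw [Real.norm_eq_abs]; exact bumpFn_abs m j)

lemma bump_apply (m j : ℕ) : bump m j = bumpFn m j := rfl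

/-- Bounded functions which are averages beyond `n`. -/
def DD (n : ℕ) : Submodule ℝ (ℕ →ᵇ ℝ) where
  carrier := {x | ∀ m, n < m → 2 ≤ m → x m = (x (par1 m) + x (par2 m)) / 2}
  add_mem' := by
    intro x y hx hy m h1 h2
    simp only [BoundedContinuousFunction.coe_add, Pi.add_apply]
    rw [hx m h1 h2, hy m h1 h2]
    ring
  zero_mem' := by
    intro m _ _
    simp
  smul_mem' := by
    intro c x hx m h1 h2
    simp only [BoundedContinuousFunction.coe_smul, smul_eq_mul]
    rw [hx m h1 h2]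
    ring

lemma mem_DD {n : ℕ} {x : ℕ →ᵇ ℝ} :
    x ∈ DD n ↔ ∀ m, n < m → 2 ≤ m → x m = (x (par1 m) + x (par2 m)) / 2 := Iff.rfl

lemma DD_mono : Monotone DD := by
  intro n n' h x hx m h1 h2
  exact hx m (lt_of_le_of_lt h h1) h2

lemma bump_mem (m : ℕ) : bump m ∈ DD m := by
  intro j h1 h2
  simp only [bump_apply]
  exact bumpFn_gt h1 h2

/-- The union of the spaces `DD n`. -/
def DU : Submodule ℝ (ℕ →ᵇ ℝ) where
  carrier := {x | ∃ n, x ∈ DD n}
  add_mem' := by
    rintro x y ⟨n, hn⟩ ⟨n', hn'⟩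
    exact ⟨max n n', Submodule.add_mem _ (DD_mono (le_max_left _ _) hn)
      (DD_mono (le_max_right _ _) hn')⟩
  zero_mem' := ⟨0, Submodule.zero_mem _⟩
  smul_mem' := by
    rintro c x ⟨n, hn⟩
    exact ⟨n, Submodule.smul_mem _ _ hn⟩

/-- The space. -/
abbrev XX : Type := (DU.topologicalClosure : Submodule ℝ (ℕ →ᵇ ℝ))

instance : CompleteSpace XX :=
  (Submodule.isClosed_topologicalClosure DU).completeSpace_coe

lemma DD_le (n : ℕ) : DD n ≤ DU.topologicalClosure := by
  intro x hx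
  exact Submodule.le_topologicalClosure _ ⟨n, hx⟩

/-- The value at `m`. -/
noncomputable def ev (m : ℕ) : XX →L[ℝ] ℝ :=
  (BoundedContinuousFunction.evalCLM ℝ m).comp DU.topologicalClosure.subtypeL

lemma ev_apply (m : ℕ) (x : XX) : ev m x = (x : ℕ →ᵇ ℝ) m := rfl

lemma norm_add_aux {n m : ℕ} {x : ℕ →ᵇ ℝ} (ξ : ℝ) (hx : x ∈ DD n) (hnm : n < m) (_ : 2 ≤ m) :
    ‖x + ξ • bump m‖ ≤ max ‖x‖ |x m + ξ| := by
  have hR : 0 ≤ max ‖x‖ |x m + ξ| := le_max_of_le_left (norm_nonneg _)
  rw [BoundedContinuousFunction.norm_le hR]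
  intro j
  rw [Real.norm_eq_abs]
  have hval : ∀ j, (x + ξ • bump m) j = x j + ξ * bumpFn m j := fun j => rfl
  induction j using Nat.strong_induction_on with
  | _ j ih =>
    rw [hval]
    rcases lt_trichotomy j m with h | h | h
    · rw [bumpFn_lt h, mul_zero, add_zero]
      exact (by simpa using BoundedContinuousFunction.norm_coe_le_norm x j : |x j| ≤ ‖x‖).trans
        (le_max_left _ _)
    · rw [h, bumpFn_self, mul_one]
      exact le_max_right _ _
    · have h2 : 2 ≤ j := by omega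
      have a1 := ih _ (par1_lt h2)
      have a2 := ih _ (par2_lt h2)
      rw [hval] at a1 a2
      rw [bumpFn_gt h h2, hx j (by omega) h2]
      rw [abs_le] at *
      constructor <;> linarith [a1.1, a1.2, a2.1, a2.2]

/-- The frame of `XX`. -/
noncomputable def frame : Frame XX where
  D := fun n => (DD n).comap DU.topologicalClosure.subtype
  mono := fun n n' h x hx => DD_mono h hx
  e := ev
  b := fun m => ⟨bump m, DD_le m (bump_mem m)⟩
  e_le := by
    intro m x
    have := BoundedContinuousFunction.norm_coe_le_norm (x : ℕ →ᵇ ℝ) m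
    rw [Real.norm_eq_abs] at this
    exact this
  norming := by
    intro x c hc
    by_contra hcon
    push Not at hcon
    have hc0 : 0 ≤ c := (abs_nonneg _).trans (hcon 0)
    have : ‖(x : ℕ →ᵇ ℝ)‖ ≤ c := by
      rw [BoundedContinuousFunction.norm_le hc0]
      intro j
      rw [Real.norm_eq_abs]
      exact hcon j
    have h2 : ‖x‖ = ‖(x : ℕ →ᵇ ℝ)‖ := rfl
    linarith
  dense := by
    intro x δ hδ
    have hx : (x : ℕ →ᵇ ℝ) ∈ closure (DU : Set (ℕ →ᵇ ℝ)) := x.2
    obtain ⟨g, ⟨n, hg⟩, hxg⟩ := Metric.mem_closure_iff.mp hx δ hδ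
    refine ⟨n, ⟨g, DD_le n hg⟩, hg, ?_⟩
    rw [dist_eq_norm] at hxg
    exact hxg
  b_mem := fun m _ => bump_mem m
  e_b_self := fun m _ => bumpFn_self m
  e_b_lt := fun m j _ h => bumpFn_lt h
  avg := fun n m x hx h1 h2 => hx m h1 h2
  norm_add := fun n m x ξ hx h1 h2 => norm_add_aux ξ hx h1 h2

end Pool.Agent.Lib.MP_046d9d_an
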